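import Pool.Agent.Q259.RM.Conc

/-!
# A bounded differences inequality for sparse random subsets (Bernstein type)
-/

set_option autoImplicit false

namespace Pool.Agent.Q47.MG

open Finset Pool.Agent.Q259.RM

variable {θ : ℕ → ℝ} {P : Finset ℕ}

theorem two_point_sparse {t D : ℝ} (ht0 : 0 ≤ t) (hD : |D| ≤ 1) :
    (1 - t) * Real.exp (-(t * D)) + t * Real.exp ((1 - t) * D) ≤ Real.exp (t * D ^ 2) := by
  have e : (1 - t) * Real.exp (-(t * D)) + t * Real.exp ((1 - t) * D) =
      Real.exp (-(t * D)) * (1 + t * (Real.exp D - 1)) := by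
    have e2 : Real.exp ((1 - t) * D) = Real.exp (-(t * D)) * Real.exp D := by
      rw [← Real.exp_add]
      congr 1
      ring
    rw [e2]
    ring
  rw [e]
  have h1 : 1 + t * (Real.exp D - 1) ≤ Real.exp (t * (Real.exp D - 1)) := by
    have := Real.add_one_le_exp (t * (Real.exp D - 1))
    linarith
  have h2 : Real.exp D - 1 - D ≤ D ^ 2 := (le_abs_self _).trans (Real.abs_exp_sub_one_sub_id_le hD)
  refine (mul_le_mul_of_nonneg_left h1 (Real.exp_pos _).le).trans ?_
  rw [← Real.exp_add, Real.exp_le_exp]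
  nlinarith

/-- exponential moment of a function which changes by at most `1` -/
theorem exp_moment_sparse (hθ : ∀ p, 0 ≤ θ p ∧ θ p ≤ 1) {s : ℝ} (hs : |s| ≤ 1) (P : Finset ℕ) :
    ∀ F : Finset ℕ → ℝ, (∀ T ⊆ P, ∀ q ∈ P, q ∉ T → |F (insert q T) - F T| ≤ 1) →
    Ex θ P (fun T => Real.exp (s * (F T - Ex θ P F))) ≤ Real.exp (s ^ 2 * ∑ q ∈ P, θ q) := by
  induction P using Finset.induction_on with
  | empty =>
    intro F _
    simp [Ex, mu]
  | insert q P hq ih =>
    intro F hF
    obtain ⟨F1, hF1⟩ : ∃ F1 : Finset ℕ → ℝ, F1 = fun T => F (insert q T) := ⟨_, rfl⟩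
    have h0 := ih F (fun T hT r hr hrT => hF T (hT.trans (subset_insert _ _)) r
      (mem_insert_of_mem hr) hrT)
    have h1 := ih F1 (fun T hT r hr hrT => by
      rw [hF1]
      simp only
      rw [insert_comm]
      refine hF (insert q T) (insert_subset_insert _ hT) r (mem_insert_of_mem hr) ?_
      rw [mem_insert, not_or]
      exact ⟨fun h => hq (h ▸ hr), hrT⟩)
    obtain ⟨E0, hE0⟩ : ∃ E0, E0 = Ex θ P F := ⟨_, rfl⟩
    obtain ⟨E1, hE1⟩ : ∃ E1, E1 = Ex θ P F1 := ⟨_, rfl⟩
    obtain ⟨S, hS⟩ : ∃ S, S = ∑ q ∈ P, θ q := ⟨_, rfl⟩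
    rw [← hE0, ← hS] at h0
    rw [← hE1, ← hS] at h1
    have hEF : Ex θ (insert q P) F = (1 - θ q) * E0 + θ q * E1 := by
      rw [Ex_insert hq F, hE0, hE1, hF1]
    have hD : |E1 - E0| ≤ 1 := by
      have h2 : E1 - E0 ≤ 1 := by
        have : E1 ≤ Ex θ P (fun T => F T + 1) := by
          rw [hE1]
          apply Ex_mono hθ
          intro T hT
          have := hF T (hT.trans (subset_insert _ _)) q (mem_insert_self _ _) (fun h => hq (hT h))
          have := (abs_le.1 this).2
          rw [hF1]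
          simp only
          linarith
        rw [Ex_add, Ex_const, ← hE0] at this
        linarith
      have h3 : E0 - E1 ≤ 1 := by
        have : E0 ≤ Ex θ P (fun T => F1 T + 1) := by
          rw [hE0]
          apply Ex_mono hθ
          intro T hT
          have := hF T (hT.trans (subset_insert _ _)) q (mem_insert_self _ _) (fun h => hq (hT h))
          have := (abs_le.1 this).1
          rw [hF1]
          simp only
          linarith
        rw [Ex_add, Ex_const, ← hE1] at this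
        linarith
      rw [abs_le]
      constructor <;> linarith
    have e0 : Ex θ P (fun T => Real.exp (s * (F T - Ex θ (insert q P) F))) =
        Real.exp (s * (E0 - Ex θ (insert q P) F)) * Ex θ P (fun T => Real.exp (s * (F T - E0))) := by
      rw [← Ex_mul]
      apply Ex_congr
      intro T _
      rw [← Real.exp_add]
      congr 1
      ring
    have e1 : Ex θ P (fun T => Real.exp (s * (F1 T - Ex θ (insert q P) F))) =
        Real.exp (s * (E1 - Ex θ (insert q P) F)) * Ex θ P (fun T => Real.exp (s * (F1 T - E1))) := by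
      rw [← Ex_mul]
      apply Ex_congr
      intro T _
      rw [← Real.exp_add]
      congr 1
      ring
    have e2 : Ex θ P (fun T => Real.exp (s * (F (insert q T) - Ex θ (insert q P) F))) =
        Ex θ P (fun T => Real.exp (s * (F1 T - Ex θ (insert q P) F))) := by rw [hF1]
    rw [Ex_insert hq (fun T => Real.exp (s * (F T - Ex θ (insert q P) F))), e2, e0, e1, sum_insert hq, ← hS]
    have hθq := hθ q
    have hsD : |s * (E1 - E0)| ≤ 1 := by
      rw [abs_mul]
      exact mul_le_one₀ hs (abs_nonneg _) hD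
    have t1 := two_point_sparse (D := s * (E1 - E0)) hθq.1 hsD
    have t2 : θ q * (s * (E1 - E0)) ^ 2 ≤ s ^ 2 * θ q := by
      have h2 : (E1 - E0) ^ 2 ≤ 1 := by
        rw [sq_le_one_iff_abs_le_one]
        exact hD
      rw [mul_pow]
      have h3 := mul_le_mul_of_nonneg_left h2 (show 0 ≤ θ q * s ^ 2 by have := hθq.1; positivity)
      linarith
    have i0 : s * (E0 - Ex θ (insert q P) F) = -(θ q * (s * (E1 - E0))) := by
      rw [hEF]
      ring
    have i1 : s * (E1 - Ex θ (insert q P) F) = (1 - θ q) * (s * (E1 - E0)) := by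
      rw [hEF]
      ring
    rw [i0, i1]
    obtain ⟨X0, hX0⟩ : ∃ X0, X0 = Ex θ P (fun T => Real.exp (s * (F T - E0))) := ⟨_, rfl⟩
    obtain ⟨X1, hX1⟩ : ∃ X1, X1 = Ex θ P (fun T => Real.exp (s * (F1 T - E1))) := ⟨_, rfl⟩
    rw [← hX0] at h0 ⊢
    rw [← hX1] at h1 ⊢
    have j0 : (1 - θ q) * (Real.exp (-(θ q * (s * (E1 - E0)))) * X0) ≤
        (1 - θ q) * (Real.exp (-(θ q * (s * (E1 - E0)))) * Real.exp (s ^ 2 * S)) := by
      apply mul_le_mul_of_nonneg_left _ (by linarith [hθq.2])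
      exact mul_le_mul_of_nonneg_left h0 (Real.exp_pos _).le
    have j1 : θ q * (Real.exp ((1 - θ q) * (s * (E1 - E0))) * X1) ≤
        θ q * (Real.exp ((1 - θ q) * (s * (E1 - E0))) * Real.exp (s ^ 2 * S)) := by
      apply mul_le_mul_of_nonneg_left _ hθq.1
      exact mul_le_mul_of_nonneg_left h1 (Real.exp_pos _).le
    have j2 : Real.exp (s ^ 2 * (θ q + S)) = Real.exp (s ^ 2 * θ q) * Real.exp (s ^ 2 * S) := by
      rw [← Real.exp_add]
      congr 1
      ring
    rw [j2]
    calc (1 - θ q) * (Real.exp (-(θ q * (s * (E1 - E0)))) * X0) +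
          θ q * (Real.exp ((1 - θ q) * (s * (E1 - E0))) * X1)
        ≤ (1 - θ q) * (Real.exp (-(θ q * (s * (E1 - E0)))) * Real.exp (s ^ 2 * S)) +
          θ q * (Real.exp ((1 - θ q) * (s * (E1 - E0))) * Real.exp (s ^ 2 * S)) := add_le_add j0 j1
      _ = ((1 - θ q) * Real.exp (-(θ q * (s * (E1 - E0)))) +
          θ q * Real.exp ((1 - θ q) * (s * (E1 - E0)))) * Real.exp (s ^ 2 * S) := by ring
      _ ≤ Real.exp (s ^ 2 * θ q) * Real.exp (s ^ 2 * S) :=
          mul_le_mul_of_nonneg_right (t1.trans (Real.exp_le_exp.2 t2)) (Real.exp_pos _).le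

open Classical in
/-- one sided tail -/
theorem tail_sparse (hθ : ∀ p, 0 ≤ θ p ∧ θ p ≤ 1) (P : Finset ℕ) (F : Finset ℕ → ℝ)
    (hF : ∀ T ⊆ P, ∀ q ∈ P, q ∉ T → |F (insert q T) - F T| ≤ 1) {V : ℝ} (hV : 0 < V)
    (hθV : ∑ q ∈ P, θ q ≤ V) {x : ℝ} (hx0 : 0 ≤ x) (hx : x ≤ 2 * V) :
    Ex θ P (fun T => if x ≤ |F T - Ex θ P F| then 1 else 0) ≤ 2 * Real.exp (-(x ^ 2 / (4 * V))) := by
  obtain ⟨s, hs⟩ : ∃ s : ℝ, s = x / (2 * V) := ⟨_, rfl⟩
  have hs0 : 0 ≤ s := by rw [hs]; positivity
  have hs1 : s ≤ 1 := by rw [hs, div_le_one (by positivity)]; exact hx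
  have h1 : Ex θ P (fun T => if x ≤ |F T - Ex θ P F| then 1 else 0) ≤
      Ex θ P (fun T => Real.exp (-(s * x)) * Real.exp (s * (F T - Ex θ P F)) +
        Real.exp (-(s * x)) * Real.exp (-s * (F T - Ex θ P F))) := by
    apply Ex_mono hθ
    intro T _
    rw [← Real.exp_add, ← Real.exp_add]
    split_ifs with h
    · rcases le_abs.1 h with h2 | h2
      · have h3 : 1 ≤ Real.exp (-(s * x) + s * (F T - Ex θ P F)) := by
          apply Real.one_le_exp
          nlinarith
        have h4 := Real.exp_pos (-(s * x) + -s * (F T - Ex θ P F))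
        linarith
      · have h3 : 1 ≤ Real.exp (-(s * x) + -s * (F T - Ex θ P F)) := by
          apply Real.one_le_exp
          nlinarith
        have h4 := Real.exp_pos (-(s * x) + s * (F T - Ex θ P F))
        linarith
    · have h3 := Real.exp_pos (-(s * x) + s * (F T - Ex θ P F))
      have h4 := Real.exp_pos (-(s * x) + -s * (F T - Ex θ P F))
      linarith
  rw [Ex_add, Ex_mul, Ex_mul] at h1
  refine h1.trans ?_
  have h2 := exp_moment_sparse hθ (s := s) (by rw [abs_of_nonneg hs0]; exact hs1) P F hF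
  have h3 := exp_moment_sparse hθ (s := -s) (by rw [abs_neg, abs_of_nonneg hs0]; exact hs1) P F hF
  rw [neg_sq] at h3
  have h4 : Real.exp (s ^ 2 * ∑ q ∈ P, θ q) ≤ Real.exp (s ^ 2 * V) :=
    Real.exp_le_exp.2 (mul_le_mul_of_nonneg_left hθV (sq_nonneg s))
  have h5 := mul_le_mul_of_nonneg_left (h2.trans h4) (Real.exp_pos (-(s * x))).le
  have h6 := mul_le_mul_of_nonneg_left (h3.trans h4) (Real.exp_pos (-(s * x))).le
  have h7 : Real.exp (-(s * x)) * Real.exp (s ^ 2 * V) = Real.exp (-(x ^ 2 / (4 * V))) := by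
    rw [← Real.exp_add, hs]
    congr 1
    field_simp
    ring
  rw [h7] at h5 h6
  linarith

end Pool.Agent.Q47.MG
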