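import Pool.Agent.Q120.MGaps.Stm

/-!
# Project MG (helper120), job MGB: the gaps of a block against the runs
-/

set_option autoImplicit false

namespace Pool.Agent.Q47.MG

open Finset MeasureTheory Filter Pool.Agent.Q120.ET Pool.Agent.Q120.GM Pool.Agent.Q120.GE
open Pool.Agent.Q120.RZ Pool.Agent.Q120.SI Pool.Agent.Q120.MG
open scoped Topology

theorem mem_rb {S : Set ℕ} {k n : ℕ} : n ∈ rb S k ↔ (2 ^ k ≤ n ∧ n < 2 ^ (k + 1)) ∧ n ∈ S := by
  classical
  unfold rb
  rw [mem_filter, block, mem_Ico]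

/-- the next element -/
theorem gap_spec {S : Set ℕ} {a : ℕ} (h : ∃ n ∈ S, a < n) : ∃ b ∈ S, a < b ∧ gap S a = b - a ∧
    ∀ n ∈ S, a < n → b ≤ n := by
  have hne : {n | n ∈ S ∧ a < n}.Nonempty := by
    obtain ⟨n, h1, h2⟩ := h
    exact ⟨n, h1, h2⟩
  have h1 := Nat.sInf_mem hne
  exact ⟨_, h1.1, h1.2, rfl, fun n hn hn2 => Nat.sInf_le ⟨hn, hn2⟩⟩

theorem nxt_spec {k : ℕ} {T : Finset ℕ} {a b : ℕ} (hb : b ∈ T ∨ b = 2 ^ (k + 1)) (hab : a < b)
    (h : ∀ n, (n ∈ T ∨ n = 2 ^ (k + 1)) → a < n → b ≤ n) : nxt k T a = b := by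
  unfold nxt
  apply le_antisymm
  · exact Nat.sInf_le ⟨hb, hab⟩
  · exact le_csInf ⟨b, hb, hab⟩ (fun n hn => h n hn.1 hn.2)

theorem t_MGB : J_MGB := by
  classical
  intro S q θ k hq hθ hk hS
  obtain ⟨F1, hF1⟩ : ∃ F1 : ℕ → ℝ, F1 = fun a => if θ * k < ((nxt k (rb S k) a - a : ℕ) : ℝ) then
    ((nxt k (rb S k) a - a : ℕ) : ℝ) ^ q else 0 := ⟨_, rfl⟩
  obtain ⟨G, hG⟩ : ∃ G : ℕ → ℝ, G = fun a => if θ * (k + 1 : ℕ) < ((nxt (k + 1) (rb S (k + 1)) a - a : ℕ) : ℝ) then
    ((nxt (k + 1) (rb S (k + 1)) a - a : ℕ) : ℝ) ^ q else 0 := ⟨_, rfl⟩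
  have hF1n : ∀ a, 0 ≤ F1 a := by
    intro a
    rw [hF1]
    simp only
    split_ifs
    · positivity
    · exact le_rfl
  have hGn : ∀ a, 0 ≤ G a := by
    intro a
    rw [hG]
    simp only
    split_ifs
    · positivity
    · exact le_rfl
  have hb1 : ∑ a ∈ rb S k, F1 a ≤ big q θ k (rb S k) := by
    unfold big
    rw [hF1]
    exact sum_le_sum_of_subset_of_nonneg (subset_insert _ _) (fun i _ _ => by
      have := hF1n i
      rw [hF1] at this
      exact this)
  have hb2 : G (2 ^ (k + 1) - 1) ≤ big q θ (k + 1) (rb S (k + 1)) := by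
    unfold big
    rw [hG]
    refine single_le_sum (f := fun a => if θ * (k + 1 : ℕ) < ((nxt (k + 1) (rb S (k + 1)) a - a : ℕ) : ℝ) then
      ((nxt (k + 1) (rb S (k + 1)) a - a : ℕ) : ℝ) ^ q else 0) (fun i _ => ?_) (mem_insert_self _ _)
    have := hGn i
    rw [hG] at this
    exact this
  obtain ⟨c, hcS, hcb⟩ := hS
  rw [block, mem_Ico] at hcb
  have hp2 : 2 ^ (k + 1) = 2 * 2 ^ k := by ring
  have hp0 : 1 ≤ 2 ^ k := Nat.one_le_two_pow
  have key : ∀ a ∈ rb S k, (if 2 * θ * (k + 1) < (gap S a : ℝ) then (gap S a : ℝ) ^ q else 0) ≤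
      (2 : ℝ) ^ q * (F1 a + if (∀ n ∈ rb S k, n ≤ a) then G (2 ^ (k + 1) - 1) else 0) := by
    intro a ha
    obtain ⟨⟨ha1, ha2⟩, ha3⟩ := mem_rb.1 ha
    have hrhs : 0 ≤ (2 : ℝ) ^ q * (F1 a + if (∀ n ∈ rb S k, n ≤ a) then G (2 ^ (k + 1) - 1) else 0) := by
      have h1 := hF1n a
      have h2 := hGn (2 ^ (k + 1) - 1)
      apply mul_nonneg (by positivity)
      split_ifs <;> linarith
    split_ifs with hgap hlast hlast
    rotate_left
    rotate_left
    · rw [if_pos hlast] at hrhs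
      exact hrhs
    · rw [if_neg hlast] at hrhs
      exact hrhs
    · obtain ⟨b, hbS, hab, hg, hmin⟩ := gap_spec ⟨c, hcS, show a < c by omega⟩
      -- last element: the next one is in the next block
      have hbk : 2 ^ (k + 1) ≤ b := by
        by_contra hcon
        have := hlast b (mem_rb.2 ⟨⟨by omega, by omega⟩, hbS⟩)
        omega
      have hbc := hmin c hcS (by omega)
      have hn1 : nxt k (rb S k) a = 2 ^ (k + 1) := by
        refine nxt_spec (Or.inr rfl) ha2 (fun n hn han => ?_)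
        rcases hn with hn | hn
        · have := hlast n hn
          omega
        · omega
      have hn2 : nxt (k + 1) (rb S (k + 1)) (2 ^ (k + 1) - 1) = b := by
        refine nxt_spec (Or.inl (mem_rb.2 ⟨⟨hbk, by omega⟩, hbS⟩)) (by omega) (fun n hn han => ?_)
        rcases hn with hn | hn
        · have h1 := mem_rb.1 hn
          exact hmin n h1.2 (by omega)
        · omega
      have hl : (((2 ^ (k + 1) - a : ℕ) : ℝ)) + ((b - (2 ^ (k + 1) - 1) : ℕ) : ℝ) = (gap S a : ℝ) + 1 := by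
        rw [hg]
        have : (2 ^ (k + 1) - a) + (b - (2 ^ (k + 1) - 1)) = (b - a) + 1 := by omega
        exact_mod_cast this
      have hmax : (gap S a : ℝ) ^ q ≤ (2 : ℝ) ^ q * (F1 a + G (2 ^ (k + 1) - 1)) := by
        rcases le_total ((2 ^ (k + 1) - a : ℕ) : ℝ) ((b - (2 ^ (k + 1) - 1) : ℕ) : ℝ) with h | h
        · have h1 : (gap S a : ℝ) ≤ 2 * ((b - (2 ^ (k + 1) - 1) : ℕ) : ℝ) := by linarith
          have h2 : G (2 ^ (k + 1) - 1) = ((b - (2 ^ (k + 1) - 1) : ℕ) : ℝ) ^ q := by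
            rw [hG]
            simp only
            rw [hn2, if_pos]
            push_cast
            linarith
          have h3 : (gap S a : ℝ) ^ q ≤ (2 * ((b - (2 ^ (k + 1) - 1) : ℕ) : ℝ)) ^ q :=
            Real.rpow_le_rpow (Nat.cast_nonneg _) h1 hq
          rw [Real.mul_rpow (by norm_num) (Nat.cast_nonneg _), ← h2] at h3
          refine h3.trans ?_
          apply mul_le_mul_of_nonneg_left _ (by positivity)
          linarith [hF1n a]
        · have h1 : (gap S a : ℝ) ≤ 2 * ((2 ^ (k + 1) - a : ℕ) : ℝ) := by linarith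
          have h2 : F1 a = ((2 ^ (k + 1) - a : ℕ) : ℝ) ^ q := by
            rw [hF1]
            simp only
            rw [hn1, if_pos]
            linarith
          have h3 : (gap S a : ℝ) ^ q ≤ (2 * ((2 ^ (k + 1) - a : ℕ) : ℝ)) ^ q :=
            Real.rpow_le_rpow (Nat.cast_nonneg _) h1 hq
          rw [Real.mul_rpow (by norm_num) (Nat.cast_nonneg _), ← h2] at h3
          refine h3.trans ?_
          apply mul_le_mul_of_nonneg_left _ (by positivity)
          linarith [hGn (2 ^ (k + 1) - 1)]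
      exact hmax
    · obtain ⟨b, hbS, hab, hg, hmin⟩ := gap_spec ⟨c, hcS, show a < c by omega⟩
      push Not at hlast
      obtain ⟨n0, hn0, hn0a⟩ := hlast
      have h0 := mem_rb.1 hn0
      have hb0 := hmin n0 h0.2 hn0a
      have hn1 : nxt k (rb S k) a = b := by
        refine nxt_spec (Or.inl (mem_rb.2 ⟨⟨by omega, by omega⟩, hbS⟩)) hab (fun n hn han => ?_)
        rcases hn with hn | hn
        · exact hmin n (mem_rb.1 hn).2 han
        · omega
      have h2 : F1 a = (gap S a : ℝ) ^ q := by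
        rw [hF1]
        simp only
        rw [hn1, ← hg, if_pos]
        have : (0 : ℝ) ≤ k := Nat.cast_nonneg k
        nlinarith
      rw [← h2, add_zero]
      have h3 : (1 : ℝ) ≤ 2 ^ q := Real.one_le_rpow (by norm_num) hq
      exact le_mul_of_one_le_left (hF1n a) h3
  refine (sum_le_sum key).trans ?_
  rw [← mul_sum, sum_add_distrib]
  apply mul_le_mul_of_nonneg_left _ (by positivity)
  refine add_le_add hb1 (le_trans ?_ hb2)
  rw [← sum_filter, sum_const, nsmul_eq_mul]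
  have h1 : ((rb S k).filter (fun a => ∀ n ∈ rb S k, n ≤ a)).card ≤ 1 := by
    rw [card_le_one]
    intro x hx y hy
    rw [mem_filter] at hx hy
    exact le_antisymm (hy.2 x hx.1) (hx.2 y hy.1)
  have h2 : (((rb S k).filter (fun a => ∀ n ∈ rb S k, n ≤ a)).card : ℝ) ≤ 1 := by exact_mod_cast h1
  exact mul_le_of_le_one_left (hGn _) h2

end Pool.Agent.Q47.MG
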