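import Pool.Agent.Q120.MGaps.Stm
import Pool.Agent.Q47.MG.MGB

/-!
# Project MG (helper120), job MGC: from the blocks to the law of the gaps
-/

set_option autoImplicit false

namespace Pool.Agent.Q47.MG

open Finset MeasureTheory Filter Pool.Agent.Q120.ET Pool.Agent.Q120.GM Pool.Agent.Q120.GE
open Pool.Agent.Q120.RZ Pool.Agent.Q120.SI Pool.Agent.Q120.MG
open scoped Topology

open Classical in
/-- number of elements in `[u, v)` with a large gap -/
noncomputable def NN (S : Set ℕ) (t : ℝ) (u v : ℕ) : ℕ :=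
  ((Ico u v).filter (fun a => a ∈ S ∧ t * Real.log a < gap S a)).card

theorem NN_add (S : Set ℕ) (t : ℝ) {u v w : ℕ} (h1 : u ≤ v) (h2 : v ≤ w) :
    NN S t u w = NN S t u v + NN S t v w := by
  classical
  unfold NN
  rw [← card_union_of_disjoint, ← filter_union, Ico_union_Ico_eq_Ico h1 h2]
  exact disjoint_filter_filter (Ico_disjoint_Ico_consecutive u v w)

theorem NN_le (S : Set ℕ) (t : ℝ) (u v : ℕ) : NN S t u v ≤ v - u := by
  classical
  unfold NN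
  refine (card_filter_le _ _).trans ?_
  rw [Nat.card_Ico]

/-- the block counts -/
theorem NN_cn2 {S : Set ℕ} {k : ℕ} (hS : ∃ n ∈ S, n ∈ block (k + 1)) (t : ℝ) {v : ℕ}
    (hv2 : v ≤ 2 ^ (k + 1)) :
    NN S t (2 ^ k) v ≤ cn2 t k v (rb S k) ∧ cn2 t k v (rb S k) ≤ NN S t (2 ^ k) v + 1 := by
  classical
  obtain ⟨c, hcS, hcb⟩ := hS
  rw [block, mem_Ico] at hcb
  constructor
  · unfold NN cn2
    apply card_le_card
    intro a ha
    rw [mem_filter, mem_Ico] at ha ⊢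
    obtain ⟨⟨h1, h2⟩, h3, h4⟩ := ha
    refine ⟨⟨h1, h2⟩, mem_rb.2 ⟨⟨h1, by omega⟩, h3⟩, ?_⟩
    rintro n hn ⟨h5, h6⟩
    obtain ⟨b, hbS, hab, hg, hmin⟩ := gap_spec ⟨c, hcS, show a < c by omega⟩
    have h7 := hmin n (mem_rb.1 hn).2 h5
    rw [hg, Nat.cast_sub hab.le] at h4
    have h8 : (b : ℝ) ≤ n := by exact_mod_cast h7
    linarith
  · have h1 : (Ico (2 ^ k) v).filter (fun a => a ∈ rb S k ∧ ∀ n ∈ rb S k, ¬ (a < n ∧ (n : ℝ) ≤ a + t * Real.log a)) ⊆
        ((Ico (2 ^ k) v).filter (fun a => a ∈ S ∧ t * Real.log a < gap S a)) ∪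
        ((rb S k).filter (fun a => ∀ n ∈ rb S k, n ≤ a)) := by
      intro a ha
      rw [mem_filter] at ha
      obtain ⟨h2, h3, h4⟩ := ha
      rw [mem_union, mem_filter, mem_filter]
      have h3' := mem_rb.1 h3
      by_cases hg : t * Real.log a < gap S a
      · exact Or.inl ⟨h2, h3'.2, hg⟩
      · right
        refine ⟨h3, fun n hn => ?_⟩
        by_contra hna
        obtain ⟨b, hbS, hab, hg', hmin⟩ := gap_spec ⟨c, hcS, show a < c by omega⟩
        have hn' := mem_rb.1 hn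
        have h5 := hmin n hn'.2 (by omega)
        refine h4 b (mem_rb.2 ⟨⟨by omega, by omega⟩, hbS⟩) ⟨hab, ?_⟩
        rw [hg', Nat.cast_sub hab.le] at hg
        linarith
    have h2 := (card_le_card h1).trans (card_union_le _ _)
    have h3 : ((rb S k).filter (fun a => ∀ n ∈ rb S k, n ≤ a)).card ≤ 1 := by
      rw [card_le_one]
      intro x hx y hy
      rw [mem_filter] at hx hy
      exact le_antisymm (hy.2 x hx.1) (hx.2 y hy.1)
    unfold NN cn2
    omega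

/-- `x / log x` -/
noncomputable def ph (x : ℝ) : ℝ := x / Real.log x

theorem log_bounds {k x : ℕ} (h1 : 2 ^ k ≤ x) (h2 : x ≤ 2 ^ (k + 1)) :
    (k : ℝ) * Real.log 2 ≤ Real.log x ∧ Real.log x ≤ ((k : ℝ) + 1) * Real.log 2 := by
  have h0 : (0 : ℝ) < x := by
    have : 0 < x := lt_of_lt_of_le (by positivity) h1
    exact_mod_cast this
  constructor
  · have := Real.log_le_log (show (0 : ℝ) < 2 ^ k by positivity) (show (2 : ℝ) ^ k ≤ x by exact_mod_cast h1)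
    rwa [Real.log_pow] at this
  · have := Real.log_le_log h0 (show (x : ℝ) ≤ 2 ^ (k + 1) by exact_mod_cast h2)
    rw [Real.log_pow] at this
    push_cast at this
    exact this

theorem ph_diff {k : ℕ} (hk : 1 ≤ k) {x : ℕ} (h1 : 2 ^ k ≤ x) (h2 : x ≤ 2 ^ (k + 1)) :
    |(x : ℝ) / (k * Real.log 2) - ph x| ≤ 4 * (2 ^ k / k) / k := by
  have hl2a := Real.log_two_gt_d9
  obtain ⟨h3, h4⟩ := log_bounds h1 h2
  have hk1 : (1 : ℝ) ≤ k := by exact_mod_cast hk
  have h5 : (0 : ℝ) < k * Real.log 2 := by positivity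
  have h6 : 0 < Real.log x := by linarith
  have hx : (x : ℝ) ≤ 2 * 2 ^ k := by
    have : (x : ℝ) ≤ 2 ^ (k + 1) := by exact_mod_cast h2
    rw [pow_succ] at this
    linarith
  have hx0 : (0 : ℝ) ≤ x := Nat.cast_nonneg x
  unfold ph
  have h7 : (x : ℝ) / Real.log x ≤ x / (k * Real.log 2) := div_le_div_of_nonneg_left hx0 h5 h3
  rw [abs_of_nonneg (by linarith)]
  have h8 : (x : ℝ) / (((k : ℝ) + 1) * Real.log 2) ≤ x / Real.log x := div_le_div_of_nonneg_left hx0 h6 h4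
  have h9 : (x : ℝ) / (k * Real.log 2) - x / (((k : ℝ) + 1) * Real.log 2) ≤ 4 * (2 ^ k / k) / k := by
    have e1 : (x : ℝ) / (k * Real.log 2) - x / (((k : ℝ) + 1) * Real.log 2) =
        x / (k * (k + 1) * Real.log 2) := by
      field_simp
      ring
    have e2 : 4 * ((2 : ℝ) ^ k / k) / k = 4 * 2 ^ k / (k * k) := by field_simp
    rw [e1, e2, div_le_div_iff₀ (by positivity) (by positivity)]
    have h10 : (x : ℝ) * (k * k) ≤ 2 * 2 ^ k * (k * k) := mul_le_mul_of_nonneg_right hx (by positivity)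
    have h11 : 2 * (2 : ℝ) ^ k * (k * k) ≤ 4 * 2 ^ k * (k * (k + 1) * Real.log 2) := by
      have h12 : (k : ℝ) * k ≤ 2 * (k * (k + 1) * Real.log 2) := by nlinarith
      have h13 : (0 : ℝ) < 2 ^ k := by positivity
      nlinarith
    linarith
  linarith

theorem sum_pow_div (K k : ℕ) (hK : 1 ≤ K) (hk : K ≤ k) :
    ∑ j ∈ Ico K (k + 1), (2 : ℝ) ^ j / j ≤ 8 * (2 ^ k / k) := by
  induction k, hk using Nat.le_induction with
  | base =>
    rw [Nat.Ico_succ_singleton, sum_singleton]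
    have : (0 : ℝ) < 2 ^ K / K := by
      have : (0 : ℝ) < K := by exact_mod_cast hK
      positivity
    linarith
  | succ k hk ih =>
    rw [Finset.sum_Ico_succ_top (by omega)]
    have hk1 : (1 : ℝ) ≤ k := by exact_mod_cast (hK.trans hk)
    have h1 : 8 * ((2 : ℝ) ^ k / k) ≤ 8 * (2 ^ (k + 1) / ((k + 1 : ℕ) : ℝ)) := by
      apply mul_le_mul_of_nonneg_left _ (by norm_num)
      rw [div_le_div_iff₀ (by linarith) (by positivity), pow_succ]
      push_cast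
      have : (0 : ℝ) < 2 ^ k := by positivity
      nlinarith
    by_cases hk7 : k = 1
    · subst hk7
      have hK1 : K = 1 := by omega
      subst hK1
      have e : Ico 1 (1 + 1) = {1} := rfl
      rw [e, sum_singleton]
      norm_num
    · have hk2 : (2 : ℝ) ≤ k := by
        have : 2 ≤ k := by
          have := hK.trans hk
          omega
        exact_mod_cast this
      have h2 : 8 * ((2 : ℝ) ^ k / k) + 2 ^ (k + 1) / ((k + 1 : ℕ) : ℝ) ≤ 8 * (2 ^ (k + 1) / ((k + 1 : ℕ) : ℝ)) := by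
        have h3 : 8 * ((2 : ℝ) ^ k / k) ≤ 7 * (2 ^ (k + 1) / ((k + 1 : ℕ) : ℝ)) := by
          rw [mul_div_assoc', mul_div_assoc', div_le_div_iff₀ (by linarith) (by positivity), pow_succ]
          push_cast
          have : (0 : ℝ) < 2 ^ k := by positivity
          nlinarith
        linarith
      linarith

theorem ev_pow_div (C ε : ℝ) (hε : 0 < ε) : ∀ᶠ k : ℕ in atTop, C ≤ ε * (2 ^ k / k) := by
  have hgeo := tendsto_pow_const_div_const_pow_of_one_lt 1 (show (1 : ℝ) < 2 by norm_num)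
  filter_upwards [eventually_ge_atTop 1,
    hgeo.eventually_lt_const (show (0 : ℝ) < ε / (|C| + 1) by positivity)] with k hk h
  have hk0 : (0 : ℝ) < k := by exact_mod_cast hk
  rw [pow_one, div_lt_div_iff₀ (by positivity) (by positivity)] at h
  have h1 : C ≤ |C| := le_abs_self C
  rw [mul_div_assoc', le_div_iff₀ hk0]
  nlinarith

theorem NN_ev {S : Set ℕ} (hyp : ∀ t ε : ℝ, 0 ≤ t → 0 < ε → ∀ᶠ k : ℕ in atTop, ∀ v ∈ block k,
    |(cn2 t k v (rb S k) : ℝ) - Real.exp (-t) * ((v : ℝ) - 2 ^ k) / (k * Real.log 2)| < ε * 2 ^ k / k) :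
    (∀ᶠ k : ℕ in atTop, ∃ n ∈ S, n ∈ block k) ∧
    ∀ t ε : ℝ, 0 ≤ t → 0 < ε → ∀ᶠ k : ℕ in atTop, ∀ v : ℕ, 2 ^ k ≤ v → v ≤ 2 ^ (k + 1) →
      |(NN S t (2 ^ k) v : ℝ) - Real.exp (-t) * (ph v - ph ((2 ^ k : ℕ) : ℝ))| ≤ ε * (2 ^ k / k) := by
  have hl2a := Real.log_two_gt_d9
  have hl2b := Real.log_two_lt_d9
  have hmeet : ∀ᶠ k : ℕ in atTop, ∃ n ∈ S, n ∈ block k := by
    filter_upwards [hyp 0 (1 / 4) le_rfl (by norm_num), eventually_ge_atTop 2] with k hk hk2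
    have hk0 : (2 : ℝ) ≤ k := by exact_mod_cast hk2
    have hp2 : 2 ^ (k + 1) = 2 * 2 ^ k := by ring
    have hp4 : 2 ^ 2 ≤ 2 ^ k := Nat.pow_le_pow_right (by norm_num) hk2
    have h1 := hk (2 ^ (k + 1) - 1) (by rw [block, mem_Ico]; omega)
    by_contra hcon
    push Not at hcon
    have h2 : cn2 0 k (2 ^ (k + 1) - 1) (rb S k) = 0 := by
      classical
      unfold cn2
      rw [card_eq_zero, filter_eq_empty_iff]
      rintro a _ ⟨h3, _⟩
      have h4 := mem_rb.1 h3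
      exact hcon a h4.2 (by rw [block, mem_Ico]; exact h4.1)
    rw [h2] at h1
    have h3 : ((2 ^ (k + 1) - 1 : ℕ) : ℝ) - 2 ^ k = 2 ^ k - 1 := by
      rw [Nat.cast_sub (by omega)]
      push_cast
      ring
    rw [h3, neg_zero, Real.exp_zero, one_mul, Nat.cast_zero, zero_sub, abs_neg] at h1
    have h4 : (4 : ℝ) ≤ 2 ^ k := by exact_mod_cast hp4
    have h5 : 1 / 4 * 2 ^ k / (k : ℝ) ≤ (2 ^ k - 1) / (k * Real.log 2) := by
      rw [div_le_div_iff₀ (by linarith) (by positivity)]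
      have h51 : 1 / 4 * 2 ^ k * Real.log 2 ≤ 2 ^ k - 1 := by nlinarith
      have h52 := mul_le_mul_of_nonneg_right h51 (show (0 : ℝ) ≤ k by linarith)
      linarith
    have h6 := le_abs_self (((2 : ℝ) ^ k - 1) / (k * Real.log 2))
    linarith
  refine ⟨hmeet, fun t ε ht hε => ?_⟩
  have hmeet' := (tendsto_add_atTop_nat 1).eventually hmeet
  filter_upwards [hyp t (ε / 4) ht (by positivity), hmeet', eventually_ge_atTop 2,
    ev_pow_div 4 (ε / 4) (by positivity), ev_pow_div 1 1 (by norm_num),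
    eventually_ge_atTop ⌈32 / ε⌉₊] with k h1 h2 h3 h4 h5 h6 v hv1 hv2
  have hk0 : (2 : ℝ) ≤ k := by exact_mod_cast h3
  have hp2 : 2 ^ (k + 1) = 2 * 2 ^ k := by ring
  have hp4 : 2 ^ 2 ≤ 2 ^ k := Nat.pow_le_pow_right (by norm_num) h3
  have he1 : Real.exp (-t) ≤ 1 := Real.exp_le_one_iff.2 (by linarith)
  have he0 : 0 < Real.exp (-t) := Real.exp_pos _
  have h6' : 32 / ε ≤ k := Nat.ceil_le.1 h6
  have hd : ∀ x : ℕ, 2 ^ k ≤ x → x ≤ 2 ^ (k + 1) →
      |(x : ℝ) / (k * Real.log 2) - ph x| ≤ ε / 8 * (2 ^ k / k) := by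
    intro x hx1 hx2
    refine (ph_diff (by omega) hx1 hx2).trans ?_
    rw [div_le_iff₀ (by linarith)]
    rw [div_le_iff₀ hε] at h6'
    have : (0 : ℝ) < 2 ^ k / k := by positivity
    nlinarith
  -- the approximation by an element of the block
  obtain ⟨w, hw1, hw2, hw3⟩ : ∃ w, w ∈ block k ∧ w ≤ v ∧ v ≤ w + 1 := by
    rcases Nat.lt_or_ge v (2 ^ (k + 1)) with h | h
    · exact ⟨v, by rw [block, mem_Ico]; omega, le_rfl, by omega⟩
    · exact ⟨v - 1, by rw [block, mem_Ico]; omega, by omega, by omega⟩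
  have hw := h1 w hw1
  rw [block, mem_Ico] at hw1
  obtain ⟨h7, h8⟩ := NN_cn2 h2 t (show w ≤ 2 ^ (k + 1) by omega)
  have h9 := NN_add S t hw1.1 hw2
  have h10 := NN_le S t w v
  have h11 : |(NN S t (2 ^ k) v : ℝ) - cn2 t k w (rb S k)| ≤ 1 := by
    have e1 : NN S t (2 ^ k) v ≤ cn2 t k w (rb S k) + 1 := by omega
    have e2 : cn2 t k w (rb S k) ≤ NN S t (2 ^ k) v + 1 := by omega
    have e1' : (NN S t (2 ^ k) v : ℝ) ≤ cn2 t k w (rb S k) + 1 := by exact_mod_cast e1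
    have e2' : (cn2 t k w (rb S k) : ℝ) ≤ NN S t (2 ^ k) v + 1 := by exact_mod_cast e2
    rw [abs_le]
    constructor <;> linarith
  have h12 : |((w : ℝ) - 2 ^ k) / (k * Real.log 2) - ((v : ℝ) - 2 ^ k) / (k * Real.log 2)| ≤ 1 := by
    rw [← sub_div]
    have e1 : (w : ℝ) ≤ v := by exact_mod_cast hw2
    have e2 : (v : ℝ) ≤ w + 1 := by exact_mod_cast hw3
    have e3 : 1 ≤ k * Real.log 2 := by nlinarith
    rw [abs_div, abs_of_pos (show 0 < k * Real.log 2 by linarith), div_le_one (by linarith)]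
    refine le_trans ?_ e3
    rw [abs_le]
    constructor <;> linarith
  have h13 := hd v hv1 hv2
  have h14 := hd (2 ^ k) le_rfl (by omega)
  have e : (NN S t (2 ^ k) v : ℝ) - Real.exp (-t) * (ph v - ph ((2 ^ k : ℕ) : ℝ)) =
      ((NN S t (2 ^ k) v : ℝ) - cn2 t k w (rb S k)) +
      ((cn2 t k w (rb S k) : ℝ) - Real.exp (-t) * ((w : ℝ) - 2 ^ k) / (k * Real.log 2)) +
      Real.exp (-t) * (((w : ℝ) - 2 ^ k) / (k * Real.log 2) - ((v : ℝ) - 2 ^ k) / (k * Real.log 2)) +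
      Real.exp (-t) * (((v : ℝ) / (k * Real.log 2) - ph v) -
        (((2 ^ k : ℕ) : ℝ) / (k * Real.log 2) - ph ((2 ^ k : ℕ) : ℝ))) := by
    push_cast
    ring
  rw [e]
  have h15 : |Real.exp (-t) * (((w : ℝ) - 2 ^ k) / (k * Real.log 2) - ((v : ℝ) - 2 ^ k) / (k * Real.log 2))| ≤ 1 := by
    rw [abs_mul, abs_of_pos he0]
    calc Real.exp (-t) * |((w : ℝ) - 2 ^ k) / (k * Real.log 2) - ((v : ℝ) - 2 ^ k) / (k * Real.log 2)|
        ≤ 1 * 1 := mul_le_mul he1 h12 (abs_nonneg _) (by norm_num)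
      _ = 1 := one_mul 1
  have h16 : |Real.exp (-t) * (((v : ℝ) / (k * Real.log 2) - ph v) -
        (((2 ^ k : ℕ) : ℝ) / (k * Real.log 2) - ph ((2 ^ k : ℕ) : ℝ)))| ≤ ε / 4 * (2 ^ k / k) := by
    rw [abs_mul, abs_of_pos he0]
    have e3 := abs_sub ((v : ℝ) / (k * Real.log 2) - ph v)
      (((2 ^ k : ℕ) : ℝ) / (k * Real.log 2) - ph ((2 ^ k : ℕ) : ℝ))
    calc Real.exp (-t) * |((v : ℝ) / (k * Real.log 2) - ph v) -
        (((2 ^ k : ℕ) : ℝ) / (k * Real.log 2) - ph ((2 ^ k : ℕ) : ℝ))|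
        ≤ 1 * (ε / 4 * (2 ^ k / k)) := mul_le_mul he1 (by linarith) (abs_nonneg _) (by norm_num)
      _ = _ := one_mul _
  have h17 : ε / 4 * 2 ^ k / (k : ℝ) = ε / 4 * (2 ^ k / k) := by ring
  rw [h17] at hw
  have a1 := abs_add_le ((NN S t (2 ^ k) v : ℝ) - cn2 t k w (rb S k) +
      ((cn2 t k w (rb S k) : ℝ) - Real.exp (-t) * ((w : ℝ) - 2 ^ k) / (k * Real.log 2)) +
      Real.exp (-t) * (((w : ℝ) - 2 ^ k) / (k * Real.log 2) - ((v : ℝ) - 2 ^ k) / (k * Real.log 2)))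
      (Real.exp (-t) * (((v : ℝ) / (k * Real.log 2) - ph v) -
        (((2 ^ k : ℕ) : ℝ) / (k * Real.log 2) - ph ((2 ^ k : ℕ) : ℝ))))
  have a2 := abs_add_le ((NN S t (2 ^ k) v : ℝ) - cn2 t k w (rb S k) +
      ((cn2 t k w (rb S k) : ℝ) - Real.exp (-t) * ((w : ℝ) - 2 ^ k) / (k * Real.log 2)))
      (Real.exp (-t) * (((w : ℝ) - 2 ^ k) / (k * Real.log 2) - ((v : ℝ) - 2 ^ k) / (k * Real.log 2)))
  have a3 := abs_add_le ((NN S t (2 ^ k) v : ℝ) - cn2 t k w (rb S k))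
      ((cn2 t k w (rb S k) : ℝ) - Real.exp (-t) * ((w : ℝ) - 2 ^ k) / (k * Real.log 2))
  linarith

theorem t_MGC : J_MGC := by
  intro S hyp t ht
  obtain ⟨_, hN⟩ := NN_ev hyp
  rw [Metric.tendsto_atTop]
  intro ε' hε'
  obtain ⟨ε, hε⟩ : ∃ ε : ℝ, ε = ε' / 20 := ⟨_, rfl⟩
  have hε0 : 0 < ε := by rw [hε]; positivity
  obtain ⟨K, hK⟩ := eventually_atTop.1 ((hN t ε ht hε0).and (eventually_ge_atTop 2))
  obtain ⟨C, hC⟩ : ∃ C : ℝ, C = (NN S t 0 (2 ^ K) : ℝ) + Real.exp (-t) * |ph ((2 ^ K : ℕ) : ℝ)| + 1 := ⟨_, rfl⟩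
  obtain ⟨K2, hK2⟩ := eventually_atTop.1 (ev_pow_div C ε hε0)
  -- telescoping
  have htel : ∀ k : ℕ, K ≤ k → ∀ v : ℕ, 2 ^ k ≤ v → v ≤ 2 ^ (k + 1) →
      |(NN S t (2 ^ K) v : ℝ) - Real.exp (-t) * (ph v - ph ((2 ^ K : ℕ) : ℝ))| ≤
        ε * ∑ j ∈ Ico K (k + 1), (2 : ℝ) ^ j / j := by
    intro k hk
    induction k, hk using Nat.le_induction with
    | base =>
      intro v hv1 hv2
      rw [Nat.Ico_succ_singleton, sum_singleton]
      exact (hK K le_rfl).1 v hv1 hv2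
    | succ k hk ih =>
      intro v hv1 hv2
      have h1 := ih (2 ^ (k + 1)) (Nat.pow_le_pow_right (by norm_num) (by omega)) le_rfl
      have h2 := (hK (k + 1) (by omega)).1 v hv1 hv2
      rw [Finset.sum_Ico_succ_top (by omega), mul_add]
      have h3 := NN_add S t (show 2 ^ K ≤ 2 ^ (k + 1) from Nat.pow_le_pow_right (by norm_num) (by omega)) hv1
      have e : (NN S t (2 ^ K) v : ℝ) - Real.exp (-t) * (ph v - ph ((2 ^ K : ℕ) : ℝ)) =
          ((NN S t (2 ^ K) (2 ^ (k + 1)) : ℝ) - Real.exp (-t) * (ph ((2 ^ (k + 1) : ℕ) : ℝ) - ph ((2 ^ K : ℕ) : ℝ))) +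
          ((NN S t (2 ^ (k + 1)) v : ℝ) - Real.exp (-t) * (ph v - ph ((2 ^ (k + 1) : ℕ) : ℝ))) := by
        rw [h3]
        push_cast
        ring
      rw [e]
      exact (abs_add_le _ _).trans (add_le_add h1 h2)
  refine ⟨2 ^ (max K K2), fun x hx => ?_⟩
  obtain ⟨k, hk⟩ : ∃ k, k = Nat.log 2 x := ⟨_, rfl⟩
  have hx0 : x ≠ 0 := by
    have : 0 < 2 ^ (max K K2) := by positivity
    omega
  have hk1 : 2 ^ k ≤ x := by rw [hk]; exact Nat.pow_log_le_self 2 hx0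
  have hk2 : x < 2 ^ (k + 1) := by rw [hk]; exact Nat.lt_pow_succ_log_self (by norm_num) x
  have hk3 : max K K2 ≤ k := by
    rw [hk]
    exact Nat.le_log_of_pow_le (by norm_num) hx
  have hkK : K ≤ k := (le_max_left _ _).trans hk3
  have hkK2 : K2 ≤ k := (le_max_right _ _).trans hk3
  have hk22 : 2 ≤ k := (hK K le_rfl).2.trans hkK
  have hkr : (2 : ℝ) ≤ k := by exact_mod_cast hk22
  have h1 := htel k hkK x hk1 hk2.le
  have h2 := sum_pow_div K k (by have := (hK K le_rfl).2; omega) hkK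
  have h3 := hK2 k hkK2
  have hNt : Nt S t x = NN S t 0 (x + 1) := by
    classical
    unfold Nt NN
    rw [Nat.Ico_zero_eq_range]
  have h4 : NN S t 0 (x + 1) = NN S t 0 (2 ^ K) + NN S t (2 ^ K) x + NN S t x (x + 1) := by
    have hKx : 2 ^ K ≤ x := (Nat.pow_le_pow_right (by norm_num) hkK).trans hk1
    rw [← NN_add S t (Nat.zero_le _) hKx, ← NN_add S t (Nat.zero_le _) (Nat.le_succ x)]
  have h5 : NN S t x (x + 1) ≤ 1 := (NN_le S t x (x + 1)).trans (by omega)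
  have h5' : (NN S t x (x + 1) : ℝ) ≤ 1 := by exact_mod_cast h5
  have h5'' : (0 : ℝ) ≤ NN S t x (x + 1) := Nat.cast_nonneg _
  have he0 : 0 < Real.exp (-t) := Real.exp_pos _
  have h6 : |(Nt S t x : ℝ) - Real.exp (-t) * ph x| ≤ 9 * ε * (2 ^ k / k) := by
    have e : (Nt S t x : ℝ) - Real.exp (-t) * ph x =
        ((NN S t (2 ^ K) x : ℝ) - Real.exp (-t) * (ph x - ph ((2 ^ K : ℕ) : ℝ))) +
        ((NN S t 0 (2 ^ K) : ℝ) - Real.exp (-t) * ph ((2 ^ K : ℕ) : ℝ) + NN S t x (x + 1)) := by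
      rw [hNt, h4]
      push_cast
      ring
    have h7 : |(NN S t 0 (2 ^ K) : ℝ) - Real.exp (-t) * ph ((2 ^ K : ℕ) : ℝ) + NN S t x (x + 1)| ≤ C := by
      refine (abs_add_le _ _).trans ?_
      rw [hC, abs_of_nonneg h5'']
      have h8 := abs_sub (NN S t 0 (2 ^ K) : ℝ) (Real.exp (-t) * ph ((2 ^ K : ℕ) : ℝ))
      have h81 : |(NN S t 0 (2 ^ K) : ℝ)| = NN S t 0 (2 ^ K) := abs_of_nonneg (Nat.cast_nonneg _)
      rw [h81, abs_mul, abs_of_pos he0] at h8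
      linarith
    have h8 : ε * ∑ j ∈ Ico K (k + 1), (2 : ℝ) ^ j / j ≤ ε * (8 * (2 ^ k / k)) :=
      mul_le_mul_of_nonneg_left h2 hε0.le
    rw [e]
    refine (abs_add_le _ _).trans ?_
    linarith
  -- division
  have hl2b := Real.log_two_lt_d9
  have hl2a := Real.log_two_gt_d9
  obtain ⟨h7, h8⟩ := log_bounds hk1 hk2.le
  have hlog : 0 < Real.log x := by nlinarith
  have hxr : (0 : ℝ) < x := by
    have : 0 < x := by omega
    exact_mod_cast this
  have hph : 0 < ph x := by unfold ph; positivity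
  have h9 : (2 : ℝ) ^ k / k ≤ 2 * ph x := by
    unfold ph
    rw [mul_div_assoc', div_le_div_iff₀ (by linarith) hlog]
    have e1 : (2 : ℝ) ^ k ≤ x := by exact_mod_cast hk1
    have e2 : Real.log x ≤ 2 * k := by nlinarith
    calc (2 : ℝ) ^ k * Real.log x ≤ x * (2 * k) := mul_le_mul e1 e2 hlog.le hxr.le
      _ = 2 * x * k := by ring
  have e : (Nt S t x : ℝ) * Real.log x / x - Real.exp (-t) =
      ((Nt S t x : ℝ) - Real.exp (-t) * ph x) / ph x := by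
    unfold ph
    field_simp
  rw [Real.dist_eq, e, abs_div, abs_of_pos hph, div_lt_iff₀ hph]
  have h10 : 9 * ε * ((2 : ℝ) ^ k / k) ≤ 9 * ε * (2 * ph x) := mul_le_mul_of_nonneg_left h9 (by positivity)
  have h11 : 9 * ε * (2 * ph x) < ε' * ph x := by
    rw [hε]
    nlinarith
  linarith

end Pool.Agent.Q47.MG
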