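import Pool.Agent.Q120.MGaps.Stm
import Pool.Agent.Q47.MG.MGB
import Pool.Agent.Q184.LG.GUP

/-!
# Project MG (helper120): the number of long runs in the model
-/

set_option autoImplicit false

namespace Pool.Agent.Q47.MG

open Finset MeasureTheory Filter Pool.Agent.Q120.ET Pool.Agent.Q120.GM Pool.Agent.Q120.GE
open Pool.Agent.Q120.RZ Pool.Agent.Q120.SI Pool.Agent.Q120.MG Pool.Agent.Q184.LG
open scoped Topology

open Classical in
/-- number of runs with `nxt - a ≥ g` -/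
noncomputable def nr (k g : ℕ) (T : Finset ℕ) : ℕ :=
  ((insert (2 ^ k - 1) T).filter (fun a => g ≤ nxt k T a - a)).card

theorem nxt_mem {k : ℕ} {T : Finset ℕ} {a : ℕ} (ha : a < 2 ^ (k + 1)) :
    (nxt k T a ∈ T ∨ nxt k T a = 2 ^ (k + 1)) ∧ a < nxt k T a ∧ nxt k T a ≤ 2 ^ (k + 1) ∧
      ∀ n, (n ∈ T ∨ n = 2 ^ (k + 1)) → a < n → nxt k T a ≤ n := by
  have hne : {n | (n ∈ T ∨ n = 2 ^ (k + 1)) ∧ a < n}.Nonempty := ⟨2 ^ (k + 1), Or.inr rfl, ha⟩
  have h1 := Nat.sInf_mem hne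
  exact ⟨h1.1, h1.2, Nat.sInf_le ⟨Or.inr rfl, ha⟩, fun n hn hn2 => Nat.sInf_le ⟨hn, hn2⟩⟩

theorem nr_le {k g : ℕ} {T : Finset ℕ} (hT : T ⊆ block k) : nr k g T ≤ 2 ^ k + 1 := by
  classical
  unfold nr
  refine (card_filter_le _ _).trans ((card_insert_le _ _).trans ?_)
  have h1 := card_le_card hT
  rw [card_block] at h1
  omega

/-- each long run contains a cell -/
theorem exists_cells {k w : ℕ} (hw : 1 ≤ w) {T : Finset ℕ} (hT : T ⊆ block k) :
    ∃ J ⊆ range (2 ^ k / w), nr k (2 * w) T ≤ J.card ∧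
      ∀ j ∈ J, ∀ n, 2 ^ k + j * w ≤ n → n < 2 ^ k + (j + 1) * w → n ∉ T := by
  classical
  obtain ⟨F, hF⟩ : ∃ F : Finset ℕ, F = (insert (2 ^ k - 1) T).filter (fun a => 2 * w ≤ nxt k T a - a) := ⟨_, rfl⟩
  have hp2 : 2 ^ (k + 1) = 2 * 2 ^ k := by ring
  have hp0 : 1 ≤ 2 ^ k := Nat.one_le_two_pow
  have hFa : ∀ a ∈ F, 2 ^ k ≤ a + 1 ∧ a < 2 ^ (k + 1) ∧ 2 * w ≤ nxt k T a - a ∧ (a ≠ 2 ^ k - 1 → a ∈ T) := by
    intro a ha
    rw [hF, mem_filter, mem_insert] at ha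
    obtain ⟨h1, h2⟩ := ha
    rcases h1 with h1 | h1
    · exact ⟨by omega, by omega, h2, fun h => absurd h1 h⟩
    · have h3 := hT h1
      rw [block, mem_Ico] at h3
      exact ⟨by omega, by omega, h2, fun _ => h1⟩
  -- the cell of a run
  have hcell : ∀ a ∈ F, a < 2 ^ k + (a + w - 2 ^ k) / w * w ∧
      2 ^ k + ((a + w - 2 ^ k) / w + 1) * w ≤ nxt k T a := by
    intro a ha
    obtain ⟨h1, h2, h3, _⟩ := hFa a ha
    have h4 := Nat.div_add_mod (a + w - 2 ^ k) w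
    have h5 := Nat.mod_lt (a + w - 2 ^ k) (show w > 0 by omega)
    have h6 : (a + w - 2 ^ k) / w * w = w * ((a + w - 2 ^ k) / w) := by ring
    rw [add_mul, one_mul, h6]
    constructor
    · omega
    · omega
  refine ⟨F.image (fun a => (a + w - 2 ^ k) / w), ?_, ?_, ?_⟩
  · intro j hj
    rw [mem_image] at hj
    obtain ⟨a, ha, rfl⟩ := hj
    obtain ⟨h1, h2⟩ := hcell a ha
    have h3 := (nxt_mem (T := T) (hFa a ha).2.1).2.2.1
    rw [mem_range]
    have h4 : ((a + w - 2 ^ k) / w + 1) * w ≤ 2 ^ k := by omega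
    have h5 := (Nat.le_div_iff_mul_le (show 0 < w by omega)).2 h4
    omega
  · have h1 : (F.image (fun a => (a + w - 2 ^ k) / w)).card = F.card := by
      apply card_image_of_injOn
      intro a ha b hb hab
      simp only at hab
      rw [mem_coe] at ha hb
      by_contra hne
      obtain ⟨a1, a2⟩ := hcell a ha
      obtain ⟨b1, b2⟩ := hcell b hb
      rw [← hab] at b1 b2
      have e : ((a + w - 2 ^ k) / w + 1) * w = (a + w - 2 ^ k) / w * w + w := by ring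
      rw [e] at a2 b2
      rcases Nat.lt_or_gt_of_ne hne with h | h
      · have h3 : b ∈ T := (hFa b hb).2.2.2 (by have := (hFa a ha).1; omega)
        have h4 := (nxt_mem (T := T) (hFa a ha).2.1).2.2.2 b (Or.inl h3) h
        omega
      · have h3 : a ∈ T := (hFa a ha).2.2.2 (by have := (hFa b hb).1; omega)
        have h4 := (nxt_mem (T := T) (hFa b hb).2.1).2.2.2 a (Or.inl h3) h
        omega
    rw [h1, hF]
    exact le_rfl
  · intro j hj n hn1 hn2 hnT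
    rw [mem_image] at hj
    obtain ⟨a, ha, rfl⟩ := hj
    obtain ⟨h1, h2⟩ := hcell a ha
    have h4 := (nxt_mem (T := T) (hFa a ha).2.1).2.2.2 n (Or.inl hnT) (by omega)
    omega

theorem nr_cell {Ω : Type*} [MeasurableSpace Ω] {μ : Measure Ω} [IsProbabilityMeasure μ] {A : Ω → Set ℕ}
    {k w m : ℕ} (hk : 2 ≤ k) (hw : 1 ≤ w) (hA : IsModel μ pc A) :
    μ.real {ω | m ≤ nr k (2 * w) (tr A (block k) ω)} ≤
      ((2 ^ k / w).choose m : ℝ) * Real.exp (-(((m * w : ℕ) : ℝ) / ((k + 1) * Real.log 2))) := by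
  classical
  obtain ⟨cell, hcell⟩ : ∃ cell : ℕ → Finset ℕ, cell = fun j => Ico (2 ^ k + j * w) (2 ^ k + (j + 1) * w) := ⟨_, rfl⟩
  obtain ⟨𝒮, h𝒮⟩ : ∃ 𝒮 : Finset (Finset ℕ), 𝒮 = (range (2 ^ k / w)).powersetCard m := ⟨_, rfl⟩
  have hsub : {ω | m ≤ nr k (2 * w) (tr A (block k) ω)} ⊆ ⋃ J ∈ 𝒮, free A (J.biUnion cell) := by
    intro ω hω
    have hω' : m ≤ nr k (2 * w) (tr A (block k) ω) := hω
    obtain ⟨J, hJ1, hJ2, hJ3⟩ := exists_cells (k := k) hw (T := tr A (block k) ω)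
      (fun n hn => (mem_tr.1 hn).1)
    obtain ⟨J', hJ', hJm⟩ := Finset.exists_subset_card_eq (hω'.trans hJ2)
    rw [Set.mem_iUnion₂]
    refine ⟨J', by rw [h𝒮, mem_powersetCard]; exact ⟨hJ'.trans hJ1, hJm⟩, ?_⟩
    intro n hn hnA
    rw [mem_biUnion] at hn
    obtain ⟨j, hj, hnj⟩ := hn
    rw [hcell, mem_Ico] at hnj
    have h1 := mem_range.1 (hJ1 (hJ' hj))
    have h2 : (j + 1) * w ≤ 2 ^ k := (Nat.mul_le_mul_right w h1).trans (Nat.div_mul_le_self _ _)
    refine hJ3 j (hJ' hj) n hnj.1 hnj.2 (mem_tr.2 ⟨?_, hnA⟩)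
    rw [block, mem_Ico, pow_succ]
    have h3 : 0 ≤ j * w := Nat.zero_le _
    omega
  have hone : ∀ J ∈ 𝒮, μ.real (free A (J.biUnion cell)) ≤ Real.exp (-(((m * w : ℕ) : ℝ) / ((k + 1) * Real.log 2))) := by
    intro J hJ
    rw [h𝒮, mem_powersetCard] at hJ
    obtain ⟨hJ1, hJ2⟩ := hJ
    have h1 : (J.biUnion cell).card = m * w := by
      rw [card_biUnion]
      · rw [hcell]
        simp only [Nat.card_Ico]
        rw [sum_congr rfl (fun j _ => show 2 ^ k + (j + 1) * w - (2 ^ k + j * w) = w by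
          rw [add_mul, one_mul]; omega), sum_const, hJ2, smul_eq_mul]
      · intro a ha b hb hab
        rw [Function.onFun, Finset.disjoint_left]
        intro n hn hn'
        rw [hcell, mem_Ico] at hn hn'
        rcases Nat.lt_or_gt_of_ne hab with h2 | h2
        · have : (a + 1) * w ≤ b * w := Nat.mul_le_mul_right w h2
          omega
        · have : (b + 1) * w ≤ a * w := Nat.mul_le_mul_right w h2
          omega
    have h2 : J.biUnion cell ⊆ block k := by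
      intro n hn
      rw [mem_biUnion] at hn
      obtain ⟨j, hj, hnj⟩ := hn
      rw [hcell, mem_Ico] at hnj
      have h1 := mem_range.1 (hJ1 hj)
      have h2 : (j + 1) * w ≤ 2 ^ k := (Nat.mul_le_mul_right w h1).trans (Nat.div_mul_le_self _ _)
      rw [block, mem_Ico, pow_succ]
      have h3 : 0 ≤ j * w := Nat.zero_le _
      omega
    have h3 := free_le hk h2 hA
    rw [h1] at h3
    exact h3
  calc μ.real {ω | m ≤ nr k (2 * w) (tr A (block k) ω)} ≤ μ.real (⋃ J ∈ 𝒮, free A (J.biUnion cell)) :=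
        measureReal_mono hsub (measure_ne_top _ _)
    _ ≤ ∑ J ∈ 𝒮, μ.real (free A (J.biUnion cell)) := measureReal_biUnion_finset_le _ _
    _ ≤ ∑ _J ∈ 𝒮, Real.exp (-(((m * w : ℕ) : ℝ) / ((k + 1) * Real.log 2))) := sum_le_sum hone
    _ = 𝒮.card * Real.exp (-(((m * w : ℕ) : ℝ) / ((k + 1) * Real.log 2))) := by rw [sum_const, nsmul_eq_mul]
    _ = _ := by rw [h𝒮, card_powersetCard, card_range]

/-- the sum of the powers by levels -/
theorem big_le {q θ : ℝ} {k : ℕ} {T : Finset ℕ} (hT : T ⊆ block k) (hq : 0 ≤ q) (G : ℕ → ℕ) (H : ℕ → ℝ)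
    (hH : ∀ i, 0 ≤ H i)
    (h : ∀ g : ℕ, 1 ≤ g → g ≤ 2 ^ k + 1 → θ * k < (g : ℝ) → ∃ i ∈ range (k + 1), G i ≤ g ∧ (g : ℝ) ≤ H i) :
    big q θ k T ≤ ∑ i ∈ range (k + 1), (nr k (G i) T : ℝ) * H i ^ q := by
  classical
  have hp2 : 2 ^ (k + 1) = 2 * 2 ^ k := by ring
  have hp0 : 1 ≤ 2 ^ k := Nat.one_le_two_pow
  have e : ∑ i ∈ range (k + 1), (nr k (G i) T : ℝ) * H i ^ q =
      ∑ a ∈ insert (2 ^ k - 1) T, ∑ i ∈ range (k + 1), if G i ≤ nxt k T a - a then H i ^ q else 0 := by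
    rw [sum_comm]
    refine sum_congr rfl (fun i _ => ?_)
    rw [← sum_filter, sum_const, nsmul_eq_mul]
    unfold nr
    rfl
  rw [e]
  unfold big
  refine sum_le_sum (fun a ha => ?_)
  have hnn : ∀ i, 0 ≤ H i ^ q := fun i => Real.rpow_nonneg (hH i) q
  have hs : 0 ≤ ∑ i ∈ range (k + 1), if G i ≤ nxt k T a - a then H i ^ q else 0 := by
    refine sum_nonneg (fun i _ => ?_)
    split_ifs
    · exact hnn i
    · exact le_rfl
  split_ifs with hgt
  · have ha1 : 2 ^ k ≤ a + 1 ∧ a < 2 ^ (k + 1) := by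
      rcases mem_insert.1 ha with h1 | h1
      · omega
      · have h3 := hT h1
        rw [block, mem_Ico] at h3
        omega
    obtain ⟨h1, h2, h3, _⟩ := nxt_mem (T := T) ha1.2
    obtain ⟨i, hi, hi1, hi2⟩ := h (nxt k T a - a) (by omega) (by omega) hgt
    have h4 : (((nxt k T a - a : ℕ) : ℝ)) ^ q ≤ H i ^ q := Real.rpow_le_rpow (Nat.cast_nonneg _) hi2 hq
    refine h4.trans ?_
    have h5 := single_le_sum (f := fun i => if G i ≤ nxt k T a - a then H i ^ q else 0) (s := range (k + 1))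
      (fun i _ => by
        split_ifs
        · exact hnn i
        · exact le_rfl) hi
    rw [if_pos hi1] at h5
    exact h5
  · exact hs

end Pool.Agent.Q47.MG
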