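import Pool.Agent.Q120.MGaps.Stm
import Pool.Agent.Q47.MG.Runs

/-!
# Project MG (helper120), job MGU: the crude bound for all runs in the model
-/

set_option autoImplicit false

namespace Pool.Agent.Q47.MG

open Finset MeasureTheory Filter Pool.Agent.Q120.ET Pool.Agent.Q120.GM Pool.Agent.Q120.GE
open Pool.Agent.Q120.RZ Pool.Agent.Q120.SI Pool.Agent.Q120.MG Pool.Agent.Q184.LG
open scoped Topology

/-- exponentials against powers -/
theorem ev_rpow_ge {a : ℝ} (ha : 0 < a) (n : ℕ) (C : ℝ) :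
    ∀ᶠ k : ℕ in atTop, C * (k : ℝ) ^ n ≤ (2 : ℝ) ^ (a * k) := by
  have hb : 1 < (2 : ℝ) ^ a := Real.one_lt_rpow (by norm_num) ha
  have hgeo := tendsto_pow_const_div_const_pow_of_one_lt n hb
  filter_upwards [hgeo.eventually_lt_const (show (0 : ℝ) < 1 / (|C| + 1) by positivity)] with k hk
  rw [div_lt_div_iff₀ (by positivity) (by positivity), one_mul] at hk
  have h1 : C ≤ |C| := le_abs_self C
  have h2 : (0 : ℝ) ≤ (k : ℝ) ^ n := by positivity
  rw [Real.rpow_mul (by norm_num), Real.rpow_natCast]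
  nlinarith

theorem ev_mgu {q β ε : ℝ} (hq : 1 < q) (hβ : 0 ≤ β) (hε : 0 < ε) : ∀ᶠ k : ℕ in atTop,
    2 ≤ k ∧ (∀ x : ℝ, 0 ≤ x → x ≤ (k : ℝ) ^ 3 → ((2 : ℝ) ^ k + 1) * (2 * x) ^ q <
      (2 : ℝ) ^ ((max 1 (q * β) + ε) * k) / (k + 1)) ∧
    2 * (k : ℝ) * (k + 1) ≤ (k : ℝ) ^ 3 / 2 ∧
    (((k : ℝ) + 1) * Real.exp (-((2 : ℝ) ^ ((β + ε / q) * k) / (2 ^ q * (k + 1)) / (4 * (k + 1)))) ≤
      Real.exp (-(2 : ℝ) ^ ((β + ε / (2 * q)) * k))) := by
  have hq0 : 0 < q := by linarith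
  obtain ⟨M, hM⟩ := exists_nat_ge (3 * q)
  filter_upwards [eventually_ge_atTop 8, ev_rpow_ge hε (M + 2) (8 * 2 ^ q),
    ev_rpow_ge (show 0 < ε / (2 * q) by positivity) 4 (2 ^ q * 64)] with k hk h1 h2
  have hk8 : (8 : ℝ) ≤ k := by exact_mod_cast hk
  have hk0 : (0 : ℝ) < k := by linarith
  have hk1 : (1 : ℝ) ≤ k := by linarith
  refine ⟨by omega, ?_, ?_, ?_⟩
  · intro x hx0 hx
    rw [lt_div_iff₀ (by linarith)]
    have h3 : (2 * x) ^ q ≤ 2 ^ q * (k : ℝ) ^ M := by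
      rw [Real.mul_rpow (by norm_num) hx0]
      apply mul_le_mul_of_nonneg_left _ (by positivity)
      calc x ^ q ≤ ((k : ℝ) ^ 3) ^ q := Real.rpow_le_rpow hx0 hx (by linarith)
        _ = (k : ℝ) ^ (3 * q) := by
          rw [← Real.rpow_natCast, ← Real.rpow_mul hk0.le]
          norm_num
        _ ≤ (k : ℝ) ^ (M : ℝ) := Real.rpow_le_rpow_of_exponent_le hk1 hM
        _ = (k : ℝ) ^ M := Real.rpow_natCast _ _
    have h4 : (2 : ℝ) ^ k + 1 ≤ 2 * 2 ^ k := by
      have : (1 : ℝ) ≤ 2 ^ k := one_le_pow₀ (by norm_num)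
      linarith
    have h5 : (k : ℝ) + 1 ≤ 2 * k := by linarith
    have h6 : (2 : ℝ) ^ k * (2 : ℝ) ^ (ε * k) ≤ (2 : ℝ) ^ ((max 1 (q * β) + ε) * k) := by
      rw [← Real.rpow_natCast, ← Real.rpow_add (by norm_num)]
      apply Real.rpow_le_rpow_of_exponent_le (by norm_num)
      have : (1 : ℝ) ≤ max 1 (q * β) := le_max_left _ _
      nlinarith
    refine lt_of_lt_of_le ?_ h6
    have h7 : (0 : ℝ) ≤ (2 * x) ^ q := Real.rpow_nonneg (by linarith) q
    have h8 : ((2 : ℝ) ^ k + 1) * (2 * x) ^ q * (k + 1) ≤ 2 * 2 ^ k * (2 ^ q * (k : ℝ) ^ M) * (2 * k) := by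
      apply mul_le_mul _ h5 (by linarith) (by positivity)
      exact mul_le_mul h4 h3 h7 (by positivity)
    refine lt_of_le_of_lt h8 ?_
    have h9 : (k : ℝ) ^ (M + 2) = (k : ℝ) ^ M * k * k := by ring
    rw [h9] at h1
    have h10 : (0 : ℝ) < 2 ^ q * (k : ℝ) ^ M * k := by positivity
    have h11 : (0 : ℝ) < 2 ^ k := by positivity
    have e : 2 * (2 : ℝ) ^ k * (2 ^ q * (k : ℝ) ^ M) * (2 * k) = 2 ^ k * (4 * (2 ^ q * (k : ℝ) ^ M * k)) := by ring
    rw [e]
    apply mul_lt_mul_of_pos_left _ h11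
    refine lt_of_lt_of_le ?_ h1
    have e2 : 8 * 2 ^ q * ((k : ℝ) ^ M * k * k) = 8 * k * (2 ^ q * (k : ℝ) ^ M * k) := by ring
    rw [e2]
    nlinarith
  · have h9 : 4 * ((k : ℝ) + 1) ≤ k ^ 2 := by nlinarith
    have h10 := mul_le_mul_of_nonneg_left h9 hk0.le
    have e : (k : ℝ) ^ 3 = k * k ^ 2 := by ring
    rw [e]
    linarith
  · obtain ⟨y, hy⟩ : ∃ y : ℝ, y = (2 : ℝ) ^ ((β + ε / (2 * q)) * k) := ⟨_, rfl⟩
    obtain ⟨z, hz⟩ : ∃ z : ℝ, z = (2 : ℝ) ^ (ε / (2 * q) * k) := ⟨_, rfl⟩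
    rw [← hz] at h2
    have hyz : (2 : ℝ) ^ ((β + ε / q) * k) = y * z := by
      rw [hy, hz, ← Real.rpow_add (by norm_num)]
      congr 1
      field_simp
      ring
    have hy1 : 1 ≤ y := by
      rw [hy]
      exact Real.one_le_rpow (by norm_num) (by positivity)
    rw [hyz, ← hy]
    have h3 : (k : ℝ) + 1 ≤ Real.exp k := Real.add_one_le_exp _
    refine (mul_le_mul_of_nonneg_right h3 (Real.exp_pos _).le).trans ?_
    rw [← Real.exp_add, Real.exp_le_exp]
    have h4 : (k : ℝ) * y + y ≤ y * z / (2 ^ q * (k + 1)) / (4 * (k + 1)) := by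
      rw [div_div, le_div_iff₀ (by positivity)]
      have h5 : ((k : ℝ) * y + y) * (2 ^ q * (k + 1) * (4 * (k + 1))) ≤ y * (2 ^ q * 64 * (k : ℝ) ^ 4) := by
        have e : ((k : ℝ) * y + y) * (2 ^ q * (k + 1) * (4 * (k + 1))) = y * (2 ^ q * (4 * (k + 1) ^ 3)) := by ring
        rw [e]
        apply mul_le_mul_of_nonneg_left _ (by linarith)
        have h6 : 4 * ((k : ℝ) + 1) ^ 3 ≤ 64 * (k : ℝ) ^ 4 := by
          have h7 : ((k : ℝ) + 1) ^ 3 ≤ (2 * k) ^ 3 := pow_le_pow_left₀ (by linarith) (by linarith) 3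
          have h8 : (k : ℝ) ^ 3 ≤ (k : ℝ) ^ 4 := pow_le_pow_right₀ hk1 (by norm_num)
          nlinarith
        have h7 : (0 : ℝ) < 2 ^ q := by positivity
        nlinarith
      exact h5.trans (mul_le_mul_of_nonneg_left h2 (by linarith))
    nlinarith

/-- probability of many runs of one length -/
theorem nr_small {Ω : Type*} [MeasurableSpace Ω] {μ : Measure Ω} [IsProbabilityMeasure μ] {A : Ω → Set ℕ}
    {k w m : ℕ} (hk : 2 ≤ k) (hw : 1 ≤ w) (hkw : 2 * (k : ℝ) * (k + 1) ≤ w) (hA : IsModel μ pc A) :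
    μ.real {ω | m ≤ nr k (2 * w) (tr A (block k) ω)} ≤ Real.exp (-((m : ℝ) * (2 * w) / (4 * (k + 1)))) := by
  refine (nr_cell hk hw hA).trans ?_
  have hl2b := Real.log_two_lt_d9
  have hl2a := Real.log_two_gt_d9
  have hk0 : (2 : ℝ) ≤ k := by exact_mod_cast hk
  have hw0 : (0 : ℝ) < w := by exact_mod_cast hw
  have h1 : ((2 ^ k / w).choose m : ℝ) ≤ Real.exp (m * (k * Real.log 2)) := by
    have h2 : (2 ^ k / w).choose m ≤ (2 ^ k) ^ m :=
      (Nat.choose_le_pow _ _).trans (Nat.pow_le_pow_left (Nat.div_le_self _ _) m)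
    have h3 : ((2 ^ k / w).choose m : ℝ) ≤ ((2 : ℝ) ^ k) ^ m := by exact_mod_cast h2
    refine h3.trans (le_of_eq ?_)
    rw [Real.exp_nat_mul, mul_comm (k : ℝ), Real.exp_mul, Real.exp_log (by norm_num), Real.rpow_natCast]
  refine (mul_le_mul_of_nonneg_right h1 (Real.exp_pos _).le).trans ?_
  rw [← Real.exp_add, Real.exp_le_exp]
  push_cast
  have h4 : (w : ℝ) / (k + 1) ≤ w / ((k + 1) * Real.log 2) := by
    apply div_le_div_of_nonneg_left hw0.le (by positivity)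
    nlinarith
  have h5 : (k : ℝ) * Real.log 2 ≤ w / (k + 1) / 2 := by
    rw [div_div, le_div_iff₀ (by positivity)]
    nlinarith
  have h6 : (m : ℝ) * (k * Real.log 2) ≤ m * (w / (k + 1) / 2) := mul_le_mul_of_nonneg_left h5 (Nat.cast_nonneg m)
  have h7 : (m : ℝ) * (w / (k + 1)) ≤ m * (w / ((k + 1) * Real.log 2)) :=
    mul_le_mul_of_nonneg_left h4 (Nat.cast_nonneg m)
  have e1 : (m : ℝ) * w / ((k + 1) * Real.log 2) = m * (w / ((k + 1) * Real.log 2)) := by ring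
  have e2 : (m : ℝ) * (2 * w) / (4 * (k + 1)) = m * (w / (k + 1) / 2) := by
    field_simp
    ring
  rw [e1, e2]
  linarith

theorem t_MGU : J_MGU := by
  classical
  intro q β ε hq hβ hε
  have hq0 : 0 < q := by linarith
  refine ⟨ε / (2 * q), by positivity, ?_⟩
  filter_upwards [ev_mgu hq hβ hε] with k hk
  obtain ⟨hk2, hsmall, hcube, hfin⟩ := hk
  intro Ω _ μ _ A hA
  have hk0 : (2 : ℝ) ≤ k := by exact_mod_cast hk2
  have hp0 : 1 ≤ 2 ^ k := Nat.one_le_two_pow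
  obtain ⟨X, hX⟩ : ∃ X : ℝ, X = (2 : ℝ) ^ ((max 1 (q * β) + ε) * k) := ⟨_, rfl⟩
  have hX0 : 0 < X := by rw [hX]; positivity
  rw [← hX]
  rw [← hX] at hsmall
  -- levels
  obtain ⟨m, hm⟩ : ∃ m : ℕ → ℕ, m = fun i => max 1 ⌈X / (k + 1) / ((2 : ℝ) ^ (i + 1)) ^ q⌉₊ := ⟨_, rfl⟩
  obtain ⟨E, hE⟩ : ∃ E : ℕ → Set Ω, E = fun i => if (k : ℝ) ^ 3 < (2 : ℝ) ^ i then
      {ω | m i ≤ nr k (2 ^ i) (tr A (block k) ω)} else ∅ := ⟨_, rfl⟩
  have hsub : {ω | X ≤ big q 0 k (tr A (block k) ω)} ⊆ ⋃ i ∈ range (k + 1), E i := by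
    intro ω hω
    have hω' : X ≤ big q 0 k (tr A (block k) ω) := hω
    have hT : tr A (block k) ω ⊆ block k := fun n hn => (mem_tr.1 hn).1
    have h1 := big_le (θ := 0) hT hq0.le (fun i => 2 ^ i) (fun i => (2 : ℝ) ^ (i + 1)) (fun i => by positivity)
      (fun g hg1 hg2 _ => by
        refine ⟨Nat.log 2 g, ?_, ?_, ?_⟩
        · rw [mem_range]
          apply Nat.log_lt_of_lt_pow (by omega)
          rw [pow_succ]
          have : 2 ^ 2 ≤ 2 ^ k := Nat.pow_le_pow_right (by norm_num) hk2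
          omega
        · exact Nat.pow_log_le_self 2 (by omega)
        · have h2 := Nat.lt_pow_succ_log_self (b := 2) (by norm_num) g
          have h3 : g ≤ 2 ^ (Nat.log 2 g + 1) := h2.le
          exact_mod_cast h3)
    have h2 := hω'.trans h1
    have h3 : ∃ i ∈ range (k + 1), X / (k + 1) ≤ (nr k (2 ^ i) (tr A (block k) ω) : ℝ) * ((2 : ℝ) ^ (i + 1)) ^ q := by
      by_contra hcon
      push Not at hcon
      have h4 := sum_lt_sum_of_nonempty (s := range (k + 1)) ⟨0, by simp⟩ hcon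
      rw [sum_const, card_range, nsmul_eq_mul] at h4
      push_cast at h4
      rw [mul_div_cancel₀ X (by linarith : ((k : ℝ) + 1) ≠ 0)] at h4
      linarith
    obtain ⟨i, hi, h4⟩ := h3
    rw [Set.mem_iUnion₂]
    refine ⟨i, hi, ?_⟩
    rw [hE]
    simp only
    have hpq : (0 : ℝ) < ((2 : ℝ) ^ (i + 1)) ^ q := by positivity
    by_cases hki : (k : ℝ) ^ 3 < (2 : ℝ) ^ i
    · rw [if_pos hki]
      show m i ≤ nr k (2 ^ i) (tr A (block k) ω)
      rw [hm]
      apply max_le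
      · by_contra hcon
        have h5 : nr k (2 ^ i) (tr A (block k) ω) = 0 := by omega
        rw [h5, Nat.cast_zero, zero_mul] at h4
        have : 0 < X / (k + 1) := by positivity
        linarith
      · rw [Nat.ceil_le, div_le_iff₀ hpq]
        exact h4
    · exfalso
      push Not at hki
      have h5 := hsmall ((2 : ℝ) ^ i) (by positivity) hki
      have h6 : (nr k (2 ^ i) (tr A (block k) ω) : ℝ) ≤ (2 : ℝ) ^ k + 1 := by exact_mod_cast nr_le hT
      have h7 : (2 : ℝ) ^ (i + 1) = 2 * 2 ^ i := by ring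
      rw [h7] at h4 hpq
      have h8 := mul_le_mul_of_nonneg_right h6 hpq.le
      linarith
  have hEb : ∀ i ∈ range (k + 1), μ.real (E i) ≤
      Real.exp (-((2 : ℝ) ^ ((β + ε / q) * k) / (2 ^ q * (k + 1)) / (4 * (k + 1)))) := by
    intro i _
    rw [hE]
    simp only
    split_ifs with hki
    · have hi1 : 1 ≤ i := by
        by_contra hcon
        have h5 : i = 0 := by omega
        subst h5
        rw [pow_zero] at hki
        have : (1 : ℝ) ≤ (k : ℝ) ^ 3 := one_le_pow₀ (by linarith)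
        linarith
      obtain ⟨j, rfl⟩ : ∃ j, i = j + 1 := ⟨i - 1, by omega⟩
      have h1 : 2 ^ (j + 1) = 2 * 2 ^ j := by ring
      have h2 := nr_small (m := m (j + 1)) (w := 2 ^ j) hk2 Nat.one_le_two_pow (by
        push_cast
        have h1' : (2 : ℝ) ^ (j + 1) = 2 * 2 ^ j := by ring
        rw [h1'] at hki
        linarith) hA
      rw [← h1] at h2
      refine h2.trans ?_
      rw [Real.exp_le_exp, neg_le_neg_iff, div_le_div_iff_of_pos_right (by positivity)]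
      push_cast
      have h1' : 2 * (2 : ℝ) ^ j = 2 ^ (j + 1) := by ring
      rw [h1']
      -- lower bound for m * 2 ^ i
      obtain ⟨x, hx⟩ : ∃ x : ℝ, x = (2 : ℝ) ^ (j + 1) := ⟨_, rfl⟩
      have hx0 : 0 < x := by rw [hx]; positivity
      rw [← hx]
      obtain ⟨Y, hY⟩ : ∃ Y : ℝ, Y = (2 : ℝ) ^ ((β + ε / q) * k) := ⟨_, rfl⟩
      rw [← hY]
      have hY0 : 0 < Y := by rw [hY]; positivity
      have hYX : Y ^ q ≤ X := by
        rw [hY, hX, ← Real.rpow_mul (by norm_num)]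
        apply Real.rpow_le_rpow_of_exponent_le (by norm_num)
        have e : (β + ε / q) * k * q = (q * β + ε) * k := by field_simp
        rw [e]
        have := le_max_right 1 (q * β)
        nlinarith
      have h2q : (1 : ℝ) ≤ 2 ^ q := Real.one_le_rpow (by norm_num) hq0.le
      rw [div_le_iff₀ (by positivity)]
      rcases le_total Y x with hYx | hYx
      · have hm1 : (1 : ℝ) ≤ m (j + 1) := by
          rw [hm]
          exact_mod_cast le_max_left _ _
        have h3 : x ≤ m (j + 1) * x := le_mul_of_one_le_left hx0.le hm1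
        have h4 : (1 : ℝ) ≤ 2 ^ q * (k + 1) := by nlinarith
        have h5 : (m (j + 1) : ℝ) * x ≤ m (j + 1) * x * (2 ^ q * (k + 1)) :=
          le_mul_of_one_le_right (by positivity) h4
        linarith
      · have hm1 : X / (k + 1) / ((2 : ℝ) ^ (j + 1 + 1)) ^ q ≤ m (j + 1) := by
          rw [hm]
          refine (Nat.le_ceil _).trans ?_
          exact_mod_cast le_max_right _ _
        have e1 : ((2 : ℝ) ^ (j + 1 + 1)) = 2 * x := by rw [hx]; ring
        rw [e1, Real.mul_rpow (by norm_num) hx0.le, div_div, div_le_iff₀ (by positivity)] at hm1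
        -- X ≤ m * (k+1) * 2^q * x^q
        have h3 : Y ^ q = Y * Y ^ (q - 1) := by
          nth_rewrite 2 [← Real.rpow_one Y]
          rw [← Real.rpow_add hY0]
          congr 1
          ring
        have h4 : x ^ q = x * x ^ (q - 1) := by
          nth_rewrite 2 [← Real.rpow_one x]
          rw [← Real.rpow_add hx0]
          congr 1
          ring
        have h5 : x ^ (q - 1) ≤ Y ^ (q - 1) := Real.rpow_le_rpow hx0.le hYx (by linarith)
        have h6 : 0 < Y ^ (q - 1) := by positivity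
        have h7 : Y * Y ^ (q - 1) ≤ m (j + 1) * x * (2 ^ q * (k + 1)) * Y ^ (q - 1) := by
          calc Y * Y ^ (q - 1) = Y ^ q := h3.symm
            _ ≤ X := hYX
            _ ≤ m (j + 1) * (((k : ℝ) + 1) * (2 ^ q * x ^ q)) := hm1
            _ = m (j + 1) * x * (2 ^ q * (k + 1)) * x ^ (q - 1) := by rw [h4]; ring
            _ ≤ m (j + 1) * x * (2 ^ q * (k + 1)) * Y ^ (q - 1) :=
              mul_le_mul_of_nonneg_left h5 (by positivity)
        exact le_of_mul_le_mul_right h7 h6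
    · rw [measureReal_empty]
      exact (Real.exp_pos _).le
  calc μ.real {ω | X ≤ big q 0 k (tr A (block k) ω)} ≤ μ.real (⋃ i ∈ range (k + 1), E i) :=
        measureReal_mono hsub (measure_ne_top _ _)
    _ ≤ ∑ i ∈ range (k + 1), μ.real (E i) := measureReal_biUnion_finset_le _ _
    _ ≤ ∑ _i ∈ range (k + 1), Real.exp (-((2 : ℝ) ^ ((β + ε / q) * k) / (2 ^ q * (k + 1)) / (4 * (k + 1)))) :=
        sum_le_sum hEb
    _ = ((k : ℝ) + 1) * Real.exp (-((2 : ℝ) ^ ((β + ε / q) * k) / (2 ^ q * (k + 1)) / (4 * (k + 1)))) := by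
        rw [sum_const, card_range, nsmul_eq_mul]
        push_cast
        ring
    _ ≤ _ := hfin

end Pool.Agent.Q47.MG
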