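import Pool.Agent.Q120.MGaps.Stm
import Pool.Agent.Q47.MG.MGC
import Pool.Agent.Q47.MG.MGU

/-!
# Project MG (helper120), job MGD: from the law of the gaps to the moments
-/

set_option autoImplicit false

namespace Pool.Agent.Q47.MG

open Finset MeasureTheory Filter Pool.Agent.Q120.ET Pool.Agent.Q120.GM Pool.Agent.Q120.GE
open Pool.Agent.Q120.RZ Pool.Agent.Q120.SI Pool.Agent.Q120.MG
open scoped Topology

/-- the integrand of the layer cake formula -/
noncomputable def lay1 (q L g t : ℝ) : ℝ := q * t ^ (q - 1) * (if t * L < g then L ^ q else 0)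

theorem rpow_cont {q : ℝ} (hq : 1 < q) : Continuous (fun t : ℝ => q * t ^ (q - 1)) :=
  continuous_const.mul (Real.continuous_rpow_const (by linarith))

theorem lay1_meas {q : ℝ} (hq : 1 < q) (L g : ℝ) : Measurable (fun t => lay1 q L g t) := by
  unfold lay1
  apply (rpow_cont hq).measurable.mul
  exact Measurable.ite (measurableSet_lt (measurable_id.mul_const L) measurable_const) measurable_const
    measurable_const

theorem lay1_int {q : ℝ} (hq : 1 < q) {L : ℝ} (_ : 0 ≤ L) (g Θ : ℝ) :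
    IntegrableOn (fun t => lay1 q L g t) (Set.Ioc 0 Θ) := by
  have h1 : IntegrableOn (fun t : ℝ => q * t ^ (q - 1) * L ^ q) (Set.Ioc 0 Θ) :=
    (((rpow_cont hq).mul continuous_const).continuousOn.integrableOn_Icc (a := 0) (b := Θ)).mono_set
      Set.Ioc_subset_Icc_self
  refine Integrable.mono h1 ((lay1_meas hq L g).aestronglyMeasurable) ?_
  filter_upwards [ae_restrict_mem measurableSet_Ioc] with t ht
  unfold lay1
  rw [Real.norm_eq_abs, Real.norm_eq_abs, abs_mul (q * t ^ (q - 1)), abs_mul (q * t ^ (q - 1))]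
  apply mul_le_mul_of_nonneg_left _ (abs_nonneg _)
  split_ifs
  · exact le_rfl
  · rw [abs_zero]
    exact abs_nonneg _

theorem int_pow {q : ℝ} (hq : 1 < q) {m : ℝ} (hm : 0 ≤ m) (C : ℝ) :
    ∫ t in Set.Ioc 0 m, q * t ^ (q - 1) * C = m ^ q * C := by
  rw [← intervalIntegral.integral_of_le hm, intervalIntegral.integral_mul_const,
    intervalIntegral.integral_const_mul, integral_rpow (Or.inl (by linarith))]
  have e : q - 1 + 1 = q := by ring
  rw [e, Real.zero_rpow (by linarith)]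
  have : q ≠ 0 := by linarith
  field_simp
  ring

/-- the layer cake formula -/
theorem lay1_integral {q : ℝ} (hq : 1 < q) {L g Θ : ℝ} (hL : 0 ≤ L) (hg : 0 ≤ g) (hΘ : 0 < Θ) :
    ∫ t in Set.Ioc 0 Θ, lay1 q L g t = (min g (Θ * L)) ^ q := by
  rcases hL.eq_or_lt with h0 | hL0
  · rw [← h0, mul_zero, min_eq_right hg, Real.zero_rpow (by linarith)]
    have e : ∀ t, lay1 q 0 g t = 0 := by
      intro t
      unfold lay1
      rw [Real.zero_rpow (by linarith)]
      split_ifs <;> ring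
    simp_rw [e]
    simp
  · have e : (fun t => lay1 q L g t) = (Set.Iio (g / L)).indicator (fun t => q * t ^ (q - 1) * L ^ q) := by
      funext t
      unfold lay1
      by_cases h : t * L < g
      · have h' : t ∈ Set.Iio (g / L) := (lt_div_iff₀ hL0).2 h
        rw [if_pos h, Set.indicator_of_mem h']
      · have h' : t ∉ Set.Iio (g / L) := fun h2 => h ((lt_div_iff₀ hL0).1 h2)
        rw [if_neg h, Set.indicator_of_notMem h', mul_zero]
    rw [e, setIntegral_indicator measurableSet_Iio]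
    rcases lt_or_ge Θ (g / L) with h | h
    · have e2 : Set.Ioc 0 Θ ∩ Set.Iio (g / L) = Set.Ioc 0 Θ := by
        rw [Set.inter_eq_left]
        intro t ht
        exact lt_of_le_of_lt ht.2 h
      rw [e2, int_pow hq hΘ.le, min_eq_right (by rw [lt_div_iff₀ hL0] at h; exact h.le),
        Real.mul_rpow hΘ.le hL0.le]
    · have e2 : Set.Ioc 0 Θ ∩ Set.Iio (g / L) = Set.Ioo 0 (g / L) := by
        ext t
        simp only [Set.mem_inter_iff, Set.mem_Ioc, Set.mem_Iio, Set.mem_Ioo]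
        constructor
        · rintro ⟨⟨h1, _⟩, h2⟩
          exact ⟨h1, h2⟩
        · rintro ⟨h1, h2⟩
          exact ⟨⟨h1, (h2.le.trans h)⟩, h2⟩
      rw [e2, ← integral_Ioc_eq_integral_Ioo, int_pow hq (by positivity),
        min_eq_left (by rw [div_le_iff₀ hL0] at h; exact h), ← Real.mul_rpow (by positivity) hL0.le,
        div_mul_cancel₀ g hL0.ne']

open Classical in
/-- the weighted number of large gaps -/
noncomputable def GG (q : ℝ) (S : Set ℕ) (x : ℕ) (t : ℝ) : ℝ :=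
  ∑ a ∈ (range (x + 1)).filter (fun a => a ∈ S), (if t * Real.log a < gap S a then Real.log a ^ q else 0)

open Classical in
/-- the sum with the truncated gaps -/
noncomputable def MM (q : ℝ) (S : Set ℕ) (Θ : ℝ) (x : ℕ) : ℝ :=
  ∑ a ∈ (range (x + 1)).filter (fun a => a ∈ S), (min (gap S a : ℝ) (Θ * Real.log a)) ^ q

theorem MM_eq {q : ℝ} (hq : 1 < q) (S : Set ℕ) {Θ : ℝ} (hΘ : 0 < Θ) (x : ℕ) :
    MM q S Θ x = ∫ t in Set.Ioc 0 Θ, q * t ^ (q - 1) * GG q S x t := by
  classical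
  unfold MM GG
  have e : ∀ t : ℝ, q * t ^ (q - 1) * ∑ a ∈ (range (x + 1)).filter (fun a => a ∈ S),
      (if t * Real.log a < gap S a then Real.log a ^ q else 0) =
      ∑ a ∈ (range (x + 1)).filter (fun a => a ∈ S), lay1 q (Real.log a) (gap S a) t := by
    intro t
    rw [mul_sum]
    rfl
  simp_rw [e]
  rw [integral_finsetSum _ (fun a _ => lay1_int hq (Real.log_natCast_nonneg a) _ _)]
  exact sum_congr rfl (fun a _ => (lay1_integral hq (Real.log_natCast_nonneg a) (Nat.cast_nonneg _) hΘ).symm)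

theorem GG_meas (q : ℝ) (S : Set ℕ) (x : ℕ) : Measurable (GG q S x) := by
  classical
  unfold GG
  refine Finset.measurable_sum _ (fun a _ => ?_)
  exact Measurable.ite (measurableSet_lt (measurable_id.mul_const _) measurable_const) measurable_const
    measurable_const

theorem GG_nonneg (q : ℝ) (S : Set ℕ) (x : ℕ) (t : ℝ) : 0 ≤ GG q S x t := by
  classical
  unfold GG
  refine sum_nonneg (fun a _ => ?_)
  split_ifs
  · exact Real.rpow_nonneg (Real.log_natCast_nonneg a) q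
  · exact le_rfl

theorem GG_eq (q : ℝ) (S : Set ℕ) (x : ℕ) (t : ℝ) [DecidablePred (fun a => a ∈ S ∧ t * Real.log a < gap S a)] :
    GG q S x t = ∑ a ∈ (range (x + 1)).filter (fun a => a ∈ S ∧ t * Real.log a < gap S a), Real.log a ^ q := by
  classical
  unfold GG
  rw [← sum_filter, filter_filter]
  refine sum_congr ?_ (fun _ _ => rfl)
  ext a
  simp only [mem_filter]

theorem GG_le {q : ℝ} (hq : 0 ≤ q) (S : Set ℕ) (x : ℕ) (t : ℝ) : GG q S x t ≤ Real.log x ^ q * Nt S t x := by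
  classical
  rw [GG_eq]
  have h1 : ∀ a ∈ (range (x + 1)).filter (fun a => a ∈ S ∧ t * Real.log a < gap S a), Real.log a ^ q ≤ Real.log x ^ q := by
    intro a ha
    rw [mem_filter, mem_range] at ha
    apply Real.rpow_le_rpow (Real.log_natCast_nonneg a) _ hq
    rcases Nat.eq_zero_or_pos a with h0 | h0
    · rw [h0, Nat.cast_zero, Real.log_zero]
      exact Real.log_natCast_nonneg x
    · apply Real.log_le_log (by exact_mod_cast h0)
      have : a ≤ x := by omega
      exact_mod_cast this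
  refine (sum_le_sum h1).trans ?_
  rw [sum_const, nsmul_eq_mul, mul_comm]
  unfold Nt
  apply le_of_eq
  congr 2

theorem Nt_mono {S : Set ℕ} {t : ℝ} (ht : 0 ≤ t) (x : ℕ) : Nt S t x ≤ Nt S 0 x := by
  classical
  unfold Nt
  apply card_le_card
  intro a ha
  rw [mem_filter] at ha ⊢
  refine ⟨ha.1, ha.2.1, ?_⟩
  rw [zero_mul]
  have h1 := Real.log_natCast_nonneg a
  have h2 : 0 ≤ t * Real.log a := by positivity
  linarith [ha.2.2]

/-- the lower bound -/
theorem GG_ge {q : ℝ} (hq : 0 ≤ q) (S : Set ℕ) {x : ℕ} (t : ℝ) (hx : 1 < Real.log x)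
    (hl : 0 ≤ Real.log x - 2 * Real.log (Real.log x)) :
    (Real.log x - 2 * Real.log (Real.log x)) ^ q * (Nt S t x - x / Real.log x ^ 2 - 1) ≤ GG q S x t := by
  classical
  obtain ⟨ℓ, hℓ⟩ : ∃ ℓ : ℝ, ℓ = Real.log x - 2 * Real.log (Real.log x) := ⟨_, rfl⟩
  rw [← hℓ] at hl ⊢
  have hx0 : (0 : ℝ) < x := by
    by_contra h
    have h1 : (x : ℝ) = 0 := le_antisymm (not_lt.1 h) (Nat.cast_nonneg x)
    rw [h1, Real.log_zero] at hx
    linarith
  obtain ⟨y, hy⟩ : ∃ y : ℕ, y = ⌊(x : ℝ) / Real.log x ^ 2⌋₊ := ⟨_, rfl⟩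
  have hy1 : (y : ℝ) ≤ x / Real.log x ^ 2 := by rw [hy]; exact Nat.floor_le (by positivity)
  obtain ⟨F, hF⟩ : ∃ F : Finset ℕ, F = (range (x + 1)).filter (fun a => a ∈ S ∧ t * Real.log a < gap S a) := ⟨_, rfl⟩
  have hNt : Nt S t x = F.card := by
    unfold Nt
    rw [hF]
  rw [GG_eq, ← hF, hNt]
  have h1 : F.card ≤ (F.filter (fun a => y < a)).card + (y + 1) := by
    rw [← card_filter_add_card_filter_not (s := F) (fun a => y < a)]
    apply Nat.add_le_add_left
    have h2 : F.filter (fun a => ¬ y < a) ⊆ range (y + 1) := by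
      intro a ha
      rw [mem_filter] at ha
      rw [mem_range]
      omega
    have h3 := card_le_card h2
    rwa [card_range] at h3
  have h2 : ∑ a ∈ F.filter (fun a => y < a), ℓ ^ q ≤ ∑ a ∈ F, Real.log a ^ q := by
    refine le_trans (sum_le_sum (fun a ha => ?_)) (sum_le_sum_of_subset_of_nonneg (filter_subset _ _)
      (fun a _ _ => Real.rpow_nonneg (Real.log_natCast_nonneg a) q))
    rw [mem_filter] at ha
    apply Real.rpow_le_rpow hl _ hq
    have h3 : (x : ℝ) / Real.log x ^ 2 ≤ a := by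
      have h4 := Nat.lt_floor_add_one ((x : ℝ) / Real.log x ^ 2)
      rw [← hy] at h4
      have h5 : ((y + 1 : ℕ) : ℝ) ≤ a := by exact_mod_cast ha.2
      push_cast at h5
      linarith
    have h4 := Real.log_le_log (by positivity) h3
    rw [Real.log_div hx0.ne' (by positivity), Real.log_pow] at h4
    rw [hℓ]
    exact_mod_cast h4
  rw [sum_const, nsmul_eq_mul] at h2
  refine le_trans ?_ h2
  rw [mul_comm]
  apply mul_le_mul_of_nonneg_right _ (Real.rpow_nonneg hl q)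
  have h3 : (F.card : ℝ) ≤ (F.filter (fun a => y < a)).card + (y + 1) := by exact_mod_cast h1
  linarith

theorem tlog : Tendsto (fun x : ℕ => Real.log (x : ℝ)) atTop atTop :=
  Real.tendsto_log_atTop.comp tendsto_natCast_atTop_atTop

/-- the limit of the weighted counts -/
theorem GG_lim {q : ℝ} (hq : 1 < q) {S : Set ℕ} (hS : GapLaw S) {t : ℝ} (ht : 0 ≤ t) :
    Tendsto (fun x : ℕ => GG q S x t / (x * Real.log x ^ (q - 1))) atTop (𝓝 (Real.exp (-t))) := by
  have h1 := hS t ht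
  have h2 : Tendsto (fun x : ℕ => Real.log (Real.log (x : ℝ)) / Real.log x) atTop (𝓝 0) :=
    (Real.isLittleO_log_id_atTop.tendsto_div_nhds_zero).comp tlog
  have h3 : Tendsto (fun x : ℕ => ((Real.log x - 2 * Real.log (Real.log x)) / Real.log x) ^ q) atTop (𝓝 1) := by
    have h4 : Tendsto (fun x : ℕ => (1 - 2 * (Real.log (Real.log (x : ℝ)) / Real.log x)) ^ q) atTop
        (𝓝 ((1 - 2 * 0) ^ q)) := ((h2.const_mul 2).const_sub 1).rpow_const (Or.inr (by linarith))
    have h5 : ((1 : ℝ) - 2 * 0) ^ q = 1 := by rw [mul_zero, sub_zero, Real.one_rpow]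
    rw [h5] at h4
    refine h4.congr' ?_
    filter_upwards [tlog.eventually_gt_atTop 0] with x hx
    congr 1
    field_simp
  have h4 : Tendsto (fun x : ℕ => 1 / Real.log (x : ℝ)) atTop (𝓝 0) := by
    simp_rw [one_div]
    exact tlog.inv_tendsto_atTop
  have h5 : Tendsto (fun x : ℕ => Real.log (x : ℝ) / x) atTop (𝓝 0) :=
    (Real.isLittleO_log_id_atTop.tendsto_div_nhds_zero).comp tendsto_natCast_atTop_atTop
  have h6 : Tendsto (fun x : ℕ => ((Real.log x - 2 * Real.log (Real.log x)) / Real.log x) ^ q *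
      ((Nt S t x : ℝ) * Real.log x / x - 1 / Real.log x - Real.log x / x)) atTop (𝓝 (Real.exp (-t))) := by
    have h7 := h3.mul ((h1.sub h4).sub h5)
    rwa [one_mul, sub_zero, sub_zero] at h7
  have hll : ∀ᶠ x : ℕ in atTop, 0 ≤ Real.log x - 2 * Real.log (Real.log (x : ℝ)) := by
    filter_upwards [h2.eventually_le_const (show (0 : ℝ) < 1 / 2 by norm_num), tlog.eventually_gt_atTop 0]
      with x hx hx0
    rw [div_le_iff₀ hx0] at hx
    linarith
  have hpos : ∀ᶠ x : ℕ in atTop, 1 < Real.log (x : ℝ) ∧ (0 : ℝ) < x := by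
    filter_upwards [tlog.eventually_gt_atTop 1, eventually_gt_atTop 0] with x hx hx0
    exact ⟨hx, by exact_mod_cast hx0⟩
  have hsplit : ∀ L : ℝ, 0 < L → L ^ q = L * L ^ (q - 1) := by
    intro L hL
    nth_rewrite 2 [← Real.rpow_one L]
    rw [← Real.rpow_add hL]
    congr 1
    ring
  refine tendsto_of_tendsto_of_tendsto_of_le_of_le' h6 h1 ?_ ?_
  · filter_upwards [hll, hpos] with x hx1 hx2
    have hL : 0 < Real.log (x : ℝ) := by linarith [hx2.1]
    have h7 := GG_ge (q := q) (by linarith) S t hx2.1 hx1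
    rw [le_div_iff₀ (by have := hx2.2; positivity)]
    refine le_trans (le_of_eq ?_) h7
    rw [Real.div_rpow hx1 hL.le, hsplit _ hL]
    have hx0 := hx2.2
    field_simp
  · filter_upwards [hpos] with x hx2
    have hL : 0 < Real.log (x : ℝ) := by linarith [hx2.1]
    have hx0 := hx2.2
    have h7 := GG_le (q := q) (by linarith) S x t
    rw [div_le_iff₀ (by positivity)]
    refine h7.trans (le_of_eq ?_)
    rw [hsplit _ hL]
    field_simp

theorem MM_lim {q : ℝ} (hq : 1 < q) {S : Set ℕ} (hS : GapLaw S) {Θ : ℝ} (hΘ : 0 < Θ) :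
    Tendsto (fun x : ℕ => MM q S Θ x / (x * Real.log x ^ (q - 1))) atTop
      (𝓝 (∫ t in Set.Ioc 0 Θ, q * t ^ (q - 1) * Real.exp (-t))) := by
  have e : ∀ x : ℕ, MM q S Θ x / (x * Real.log x ^ (q - 1)) =
      ∫ t in Set.Ioc 0 Θ, q * t ^ (q - 1) * (GG q S x t / (x * Real.log x ^ (q - 1))) := by
    intro x
    rw [MM_eq hq S hΘ, ← integral_div]
    congr 1
    funext t
    ring
  simp_rw [e]
  refine tendsto_integral_filter_of_dominated_convergence (fun _ => q * Θ ^ (q - 1) * 2) ?_ ?_ ?_ ?_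
  · refine Eventually.of_forall (fun x => ?_)
    exact ((rpow_cont hq).measurable.mul ((GG_meas q S x).div_const _)).aestronglyMeasurable
  · filter_upwards [(hS 0 le_rfl).eventually_le_const (show Real.exp (-0) < 2 by simp),
      tlog.eventually_gt_atTop 0, eventually_gt_atTop 0] with x hx hL hx0
    filter_upwards [ae_restrict_mem measurableSet_Ioc] with t ht
    have hx0' : (0 : ℝ) < x := by exact_mod_cast hx0
    have h1 : GG q S x t / (x * Real.log x ^ (q - 1)) ≤ 2 := by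
      refine le_trans ?_ hx
      rw [div_le_iff₀ (by positivity)]
      refine (GG_le (by linarith) S x t).trans ?_
      have h2 : (Nt S t x : ℝ) ≤ Nt S 0 x := by exact_mod_cast Nt_mono ht.1.le x
      have h3 : Real.log x ^ q = Real.log x * Real.log x ^ (q - 1) := by
        nth_rewrite 2 [← Real.rpow_one (Real.log x)]
        rw [← Real.rpow_add hL]
        congr 1
        ring
      calc Real.log x ^ q * (Nt S t x : ℝ) ≤ Real.log x ^ q * Nt S 0 x :=
            mul_le_mul_of_nonneg_left h2 (by positivity)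
        _ = _ := by
          rw [h3]
          field_simp
    have h0 : 0 ≤ GG q S x t / (x * Real.log x ^ (q - 1)) := div_nonneg (GG_nonneg q S x t) (by positivity)
    have h2 : t ^ (q - 1) ≤ Θ ^ (q - 1) := Real.rpow_le_rpow ht.1.le ht.2 (by linarith)
    have h3 : 0 ≤ t ^ (q - 1) := Real.rpow_nonneg ht.1.le _
    rw [Real.norm_eq_abs, abs_of_nonneg (by positivity)]
    exact mul_le_mul (mul_le_mul_of_nonneg_left h2 (by linarith)) h1 h0 (by positivity)
  · exact integrable_const _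
  · filter_upwards [ae_restrict_mem measurableSet_Ioc] with t ht
    exact (GG_lim hq hS ht.1.le).const_mul _

theorem I_lim {q : ℝ} (hq : 1 < q) : Tendsto (fun Θ : ℝ => ∫ t in Set.Ioc 0 Θ, q * t ^ (q - 1) * Real.exp (-t))
    atTop (𝓝 (Real.Gamma (q + 1))) := by
  have hq0 : 0 < q := by linarith
  rw [Real.Gamma_add_one hq0.ne', Real.Gamma_eq_integral hq0]
  have h1 := intervalIntegral_tendsto_integral_Ioi (f := fun x => Real.exp (-x) * x ^ (q - 1)) (μ := volume) 0
    (Real.GammaIntegral_convergent hq0) (tendsto_id (α := ℝ) (x := atTop))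
  have h2 := h1.const_mul q
  refine h2.congr' ?_
  filter_upwards [eventually_ge_atTop 0] with Θ hΘ
  rw [id, intervalIntegral.integral_of_le hΘ, ← integral_const_mul]
  congr 1
  funext t
  ring

theorem law_meets {S : Set ℕ} (hS : GapLaw S) : ∀ᶠ k : ℕ in atTop, ∃ n ∈ S, n ∈ block k := by
  classical
  have h1 := hS 0 le_rfl
  rw [neg_zero, Real.exp_zero] at h1
  have hpow : Tendsto (fun k : ℕ => 2 ^ k) atTop atTop := tendsto_pow_atTop_atTop_of_one_lt (by norm_num)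
  have h2 := h1.comp hpow
  have h3 := h2.eventually_lt_const (show (1 : ℝ) < 1.1 by norm_num)
  have h4 := (h2.comp (tendsto_add_atTop_nat 1)).eventually_const_lt (show (0.9 : ℝ) < 1 by norm_num)
  filter_upwards [h3, h4, eventually_ge_atTop 6, ev_pow_div 8 1 (by norm_num)] with k hk3 hk4 hk6 hk8
  by_contra hcon
  push Not at hcon
  have hsub : (range (2 ^ (k + 1) + 1)).filter (fun a => a ∈ S ∧ 0 * Real.log a < gap S a) ⊆
      insert (2 ^ (k + 1)) ((range (2 ^ k + 1)).filter (fun a => a ∈ S ∧ 0 * Real.log a < gap S a)) := by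
    intro a ha
    rw [mem_filter, mem_range] at ha
    rw [mem_insert, mem_filter, mem_range]
    by_cases h5 : a = 2 ^ (k + 1)
    · exact Or.inl h5
    · right
      refine ⟨?_, ha.2⟩
      by_contra h6
      exact hcon a ha.2.1 (by rw [block, mem_Ico]; omega)
  have h5 : Nt S 0 (2 ^ (k + 1)) ≤ Nt S 0 (2 ^ k) + 1 := by
    unfold Nt
    have h6 := (card_le_card hsub).trans (card_insert_le _ _)
    exact h6
  have h5' : (Nt S 0 (2 ^ (k + 1)) : ℝ) ≤ Nt S 0 (2 ^ k) + 1 := by exact_mod_cast h5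
  simp only [Function.comp] at hk3 hk4
  have hl2 : 0 < Real.log 2 := Real.log_pos (by norm_num)
  have hl2b := Real.log_two_lt_d9
  have hk0 : (6 : ℝ) ≤ k := by exact_mod_cast hk6
  push_cast at hk3 hk4
  rw [Real.log_pow, div_lt_iff₀ (by positivity)] at hk3
  rw [Real.log_pow, lt_div_iff₀ (by positivity)] at hk4
  obtain ⟨P, hP⟩ : ∃ P : ℝ, P = 2 ^ k := ⟨_, rfl⟩
  obtain ⟨N0, hN0⟩ : ∃ N0 : ℝ, N0 = (Nt S 0 (2 ^ k) : ℝ) := ⟨_, rfl⟩
  obtain ⟨N1, hN1⟩ : ∃ N1 : ℝ, N1 = (Nt S 0 (2 ^ (k + 1)) : ℝ) := ⟨_, rfl⟩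
  have e : (2 : ℝ) ^ (k + 1) = 2 * P := by rw [hP]; ring
  rw [e] at hk4
  rw [← hP] at hk3 hk8
  rw [← hN0] at hk3 h5'
  rw [← hN1] at hk4 h5'
  push_cast at hk4
  rw [one_mul, le_div_iff₀ (by linarith)] at hk8
  -- 1.8 P < N1 (k+1) l, N0 k l < 1.1 P, N1 ≤ N0 + 1, 8 k ≤ P
  have h6 : N1 * (((k : ℝ) + 1) * Real.log 2) ≤ (N0 + 1) * (((k : ℝ) + 1) * Real.log 2) :=
    mul_le_mul_of_nonneg_right h5' (by positivity)
  have h7 : N0 * (((k : ℝ) + 1) * Real.log 2) ≤ 7 / 6 * (N0 * (k * Real.log 2)) := by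
    have h8 : (k : ℝ) + 1 ≤ 7 / 6 * k := by linarith
    have h9 : 0 ≤ N0 := by rw [hN0]; exact Nat.cast_nonneg _
    have h10 := mul_le_mul_of_nonneg_left h8 (show 0 ≤ N0 * Real.log 2 by positivity)
    linarith
  have h8 : ((k : ℝ) + 1) * Real.log 2 ≤ 2 * k := by
    have h81 : ((k : ℝ) + 1) * Real.log 2 ≤ (k + 1) * 1 :=
      mul_le_mul_of_nonneg_left (by linarith) (by linarith)
    linarith
  linarith

open Classical in
/-- the sum over the large gaps -/
noncomputable def RR (q : ℝ) (S : Set ℕ) (Θ : ℝ) (v : ℕ) : ℝ :=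
  ∑ a ∈ (range v).filter (fun a => a ∈ S), (if Θ * Real.log a < gap S a then (gap S a : ℝ) ^ q else 0)

theorem RR_term (q : ℝ) (S : Set ℕ) (Θ : ℝ) (a : ℕ) :
    0 ≤ (if Θ * Real.log a < gap S a then (gap S a : ℝ) ^ q else 0) := by
  split_ifs
  · positivity
  · exact le_rfl

theorem RR_mono (q : ℝ) (S : Set ℕ) (Θ : ℝ) {u v : ℕ} (h : u ≤ v) : RR q S Θ u ≤ RR q S Θ v := by
  classical
  unfold RR
  apply sum_le_sum_of_subset_of_nonneg
  · exact filter_subset_filter _ (range_subset_range.2 h)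
  · exact fun a _ _ => RR_term q S Θ a

theorem RR_succ (q : ℝ) (S : Set ℕ) (Θ : ℝ) (k : ℕ) :
    RR q S Θ (2 ^ (k + 1)) = RR q S Θ (2 ^ k) +
      ∑ a ∈ rb S k, (if Θ * Real.log a < gap S a then (gap S a : ℝ) ^ q else 0) := by
  classical
  unfold RR
  have h1 : (range (2 ^ (k + 1))).filter (fun a => a ∈ S) =
      (range (2 ^ k)).filter (fun a => a ∈ S) ∪ rb S k := by
    ext a
    rw [mem_union, mem_filter, mem_filter, mem_range, mem_range, mem_rb]
    have : 2 ^ (k + 1) = 2 * 2 ^ k := by ring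
    constructor
    · rintro ⟨h2, h3⟩
      rcases Nat.lt_or_ge a (2 ^ k) with h4 | h4
      · exact Or.inl ⟨h4, h3⟩
      · exact Or.inr ⟨⟨h4, h2⟩, h3⟩
    · rintro (⟨h2, h3⟩ | ⟨⟨h2, h3⟩, h4⟩)
      · exact ⟨by omega, h3⟩
      · exact ⟨h3, h4⟩
  rw [h1, sum_union]
  rw [Finset.disjoint_left]
  intro a ha hb
  rw [mem_filter, mem_range] at ha
  have := (mem_rb.1 hb).1.1
  omega

theorem sum_pow_le (q : ℝ) (hq : 1 < q) (K k : ℕ) :
    ∑ j ∈ Ico K (k + 1), (2 : ℝ) ^ j * (j : ℝ) ^ (q - 1) ≤ 2 * 2 ^ k * (k : ℝ) ^ (q - 1) := by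
  have h1 : ∀ j ∈ Ico K (k + 1), (2 : ℝ) ^ j * (j : ℝ) ^ (q - 1) ≤ 2 ^ j * (k : ℝ) ^ (q - 1) := by
    intro j hj
    rw [mem_Ico] at hj
    apply mul_le_mul_of_nonneg_left _ (by positivity)
    apply Real.rpow_le_rpow (Nat.cast_nonneg j) _ (by linarith)
    have : j ≤ k := by omega
    exact_mod_cast this
  refine (sum_le_sum h1).trans ?_
  rw [← sum_mul]
  apply mul_le_mul_of_nonneg_right _ (by positivity)
  have h2 : ∑ j ∈ Ico K (k + 1), (2 : ℝ) ^ j ≤ ∑ j ∈ range (k + 1), (2 : ℝ) ^ j := by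
    apply sum_le_sum_of_subset_of_nonneg
    · intro j hj
      rw [mem_Ico] at hj
      rw [mem_range]
      exact hj.2
    · intro j _ _
      positivity
  refine h2.trans ?_
  have h3 := geom_sum_mul (2 : ℝ) (k + 1)
  have h4 : (2 : ℝ) ^ (k + 1) = 2 * 2 ^ k := by ring
  rw [h4] at h3
  linarith

theorem RR_small (hB : J_MGB) {q : ℝ} (hq : 1 < q) {S : Set ℕ} (hS : GapLaw S)
    (hbig : ∀ ε : ℝ, 0 < ε → ∃ θ : ℝ, 0 < θ ∧ ∀ᶠ k : ℕ in atTop, big q θ k (rb S k) ≤ ε * 2 ^ k * (k : ℝ) ^ (q - 1))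
    {ε : ℝ} (hε : 0 < ε) : ∃ Θ₀ : ℝ, 0 < Θ₀ ∧ ∀ᶠ x : ℕ in atTop,
      RR q S Θ₀ (x + 1) ≤ ε * (x * Real.log x ^ (q - 1)) := by
  classical
  obtain ⟨D, hD⟩ : ∃ D : ℝ, D = 3 * 2 ^ q * 2 ^ (q - 1) := ⟨_, rfl⟩
  have hD0 : 0 < D := by rw [hD]; positivity
  obtain ⟨ε₁, hε₁⟩ : ∃ ε₁ : ℝ, ε₁ = ε / (4 * 2 ^ (q - 1) * D) := ⟨_, rfl⟩
  have hε₁0 : 0 < ε₁ := by rw [hε₁]; positivity
  obtain ⟨θ, hθ, hθk⟩ := hbig ε₁ hε₁0
  have hl2 : 0 < Real.log 2 := Real.log_pos (by norm_num)
  have hl2a := Real.log_two_gt_d9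
  refine ⟨4 * θ / Real.log 2, by positivity, ?_⟩
  have hmeet := law_meets hS
  obtain ⟨K, hK⟩ := eventually_atTop.1 (((hθk.and ((tendsto_add_atTop_nat 1).eventually hθk)).and
    ((tendsto_add_atTop_nat 1).eventually hmeet)).and (eventually_ge_atTop 1))
  obtain ⟨Θ, hΘ⟩ : ∃ Θ : ℝ, Θ = 4 * θ / Real.log 2 := ⟨_, rfl⟩
  rw [← hΘ]
  have hblock : ∀ j, K ≤ j → ∑ a ∈ rb S j, (if Θ * Real.log a < gap S a then (gap S a : ℝ) ^ q else 0) ≤
      D * ε₁ * (2 ^ j * (j : ℝ) ^ (q - 1)) := by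
    intro j hj
    obtain ⟨⟨⟨h1, h2⟩, h3⟩, h4⟩ := hK j hj
    have hj1 : (1 : ℝ) ≤ j := by exact_mod_cast h4
    have h5 := hB S q θ j (by linarith) hθ.le h4 h3
    have h6 : ∑ a ∈ rb S j, (if Θ * Real.log a < gap S a then (gap S a : ℝ) ^ q else 0) ≤
        ∑ a ∈ rb S j, (if 2 * θ * (j + 1) < (gap S a : ℝ) then (gap S a : ℝ) ^ q else 0) := by
      refine sum_le_sum (fun a ha => ?_)
      have ha' := (mem_rb.1 ha).1
      have h7 := (log_bounds ha'.1 ha'.2.le).1
      have h8 : 2 * θ * ((j : ℝ) + 1) ≤ Θ * Real.log a := by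
        have h9 : Θ * (j * Real.log 2) ≤ Θ * Real.log a :=
          mul_le_mul_of_nonneg_left h7 (by rw [hΘ]; positivity)
        have h10 : Θ * (j * Real.log 2) = 4 * θ * j := by
          rw [hΘ]
          field_simp
        nlinarith
      by_cases h9 : Θ * Real.log a < gap S a
      · rw [if_pos h9, if_pos (lt_of_le_of_lt h8 h9)]
      · rw [if_neg h9]
        split_ifs
        · positivity
        · exact le_rfl
    refine h6.trans (h5.trans ?_)
    have h7 : ((j : ℝ) + 1) ^ (q - 1) ≤ 2 ^ (q - 1) * (j : ℝ) ^ (q - 1) := by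
      rw [← Real.mul_rpow (by norm_num) (by linarith)]
      exact Real.rpow_le_rpow (by linarith) (by linarith) (by linarith)
    have h8 : (j : ℝ) ^ (q - 1) ≤ 2 ^ (q - 1) * (j : ℝ) ^ (q - 1) := by
      apply le_mul_of_one_le_left (by positivity)
      exact Real.one_le_rpow (by norm_num) (by linarith)
    push_cast at h2
    rw [pow_succ] at h2
    have hp : (0 : ℝ) < ε₁ * 2 ^ j := by positivity
    have h9 := mul_le_mul_of_nonneg_left h7 hp.le
    have h10 := mul_le_mul_of_nonneg_left h8 hp.le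
    have h11 : big q θ j (rb S j) + big q θ (j + 1) (rb S (j + 1)) ≤
        3 * (ε₁ * 2 ^ j * (2 ^ (q - 1) * (j : ℝ) ^ (q - 1))) := by
      nlinarith
    have h12 := mul_le_mul_of_nonneg_left h11 (show (0 : ℝ) ≤ 2 ^ q by positivity)
    refine h12.trans (le_of_eq ?_)
    rw [hD]
    ring
  have hind : ∀ k, K ≤ k → RR q S Θ (2 ^ (k + 1)) ≤ RR q S Θ (2 ^ K) +
      D * ε₁ * ∑ j ∈ Ico K (k + 1), (2 : ℝ) ^ j * (j : ℝ) ^ (q - 1) := by
    intro k hk
    induction k, hk using Nat.le_induction with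
    | base =>
      rw [RR_succ, Nat.Ico_succ_singleton, sum_singleton]
      linarith [hblock K le_rfl]
    | succ k hk ih =>
      rw [RR_succ, Finset.sum_Ico_succ_top (by omega), mul_add]
      linarith [hblock (k + 1) (by omega)]
  obtain ⟨C, hC⟩ : ∃ C : ℝ, C = RR q S Θ (2 ^ K) := ⟨_, rfl⟩
  have hcast : Tendsto (fun x : ℕ => (x : ℝ)) atTop atTop := tendsto_natCast_atTop_atTop
  filter_upwards [tlog.eventually_ge_atTop 1, hcast.eventually_ge_atTop (2 * C / ε),
    eventually_ge_atTop (2 ^ K)] with x hx1 hx2 hx3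
  obtain ⟨k, hk⟩ : ∃ k, k = Nat.log 2 x := ⟨_, rfl⟩
  have hx0 : x ≠ 0 := by
    have : 0 < 2 ^ K := by positivity
    omega
  have hk1 : 2 ^ k ≤ x := by rw [hk]; exact Nat.pow_log_le_self 2 hx0
  have hk2 : x < 2 ^ (k + 1) := by rw [hk]; exact Nat.lt_pow_succ_log_self (by norm_num) x
  have hkK : K ≤ k := by
    rw [hk]
    exact Nat.le_log_of_pow_le (by norm_num) hx3
  have h1 := RR_mono q S Θ (show x + 1 ≤ 2 ^ (k + 1) by omega)
  have h2 := hind k hkK
  have h3 := sum_pow_le q hq K k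
  have h4 := (log_bounds hk1 hk2.le).1
  have h5 : (k : ℝ) ≤ 2 * Real.log x := by
    have : (0 : ℝ) ≤ k := Nat.cast_nonneg k
    nlinarith
  have h6 : (k : ℝ) ^ (q - 1) ≤ 2 ^ (q - 1) * Real.log x ^ (q - 1) := by
    rw [← Real.mul_rpow (by norm_num) (by linarith)]
    exact Real.rpow_le_rpow (Nat.cast_nonneg k) h5 (by linarith)
  have h7 : (2 : ℝ) ^ k ≤ x := by exact_mod_cast hk1
  have h8 : D * ε₁ * (2 * 2 ^ k * (k : ℝ) ^ (q - 1)) ≤ ε / 2 * (x * Real.log x ^ (q - 1)) := by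
    have h9 : 2 * (2 : ℝ) ^ k * (k : ℝ) ^ (q - 1) ≤ 2 * x * (2 ^ (q - 1) * Real.log x ^ (q - 1)) :=
      mul_le_mul (by linarith) h6 (by positivity) (by positivity)
    refine (mul_le_mul_of_nonneg_left h9 (by positivity)).trans (le_of_eq ?_)
    rw [hε₁]
    have : (2 : ℝ) ^ (q - 1) ≠ 0 := by positivity
    field_simp
    ring
  have h9 : C ≤ ε / 2 * (x * Real.log x ^ (q - 1)) := by
    have h10 : (1 : ℝ) ≤ Real.log x ^ (q - 1) := Real.one_le_rpow hx1 (by linarith)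
    have h11 : C ≤ ε / 2 * x := by
      rw [div_le_iff₀ hε] at hx2
      linarith
    have h12 : (x : ℝ) ≤ x * Real.log x ^ (q - 1) := le_mul_of_one_le_right (Nat.cast_nonneg x) h10
    nlinarith
  have h10 := mul_le_mul_of_nonneg_left h3 (show 0 ≤ D * ε₁ by positivity)
  rw [← hC] at h2
  linarith

theorem Fq_MM {q : ℝ} (hq : 1 < q) {S : Set ℕ} {Θ₀ Θ : ℝ} (h0 : 0 < Θ₀) (h : Θ₀ ≤ Θ) (x : ℕ) :
    MM q S Θ x ≤ Fq q S x ∧ Fq q S x ≤ MM q S Θ x + RR q S Θ₀ (x + 1) := by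
  classical
  have hΘ : 0 < Θ := by linarith
  unfold Fq MM RR
  constructor
  · refine sum_le_sum (fun a _ => ?_)
    have h1 := Real.log_natCast_nonneg a
    apply Real.rpow_le_rpow _ (min_le_left _ _) (by linarith)
    exact le_min (Nat.cast_nonneg _) (by positivity)
  · rw [← sum_add_distrib]
    refine sum_le_sum (fun a _ => ?_)
    have h1 := Real.log_natCast_nonneg a
    have h2 : Θ₀ * Real.log a ≤ Θ * Real.log a := mul_le_mul_of_nonneg_right h h1
    have h4 : 0 ≤ (min (gap S a : ℝ) (Θ * Real.log a)) ^ q := by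
      apply Real.rpow_nonneg
      exact le_min (Nat.cast_nonneg _) (by positivity)
    split_ifs with h3
    · linarith
    · rw [min_eq_left (by linarith), add_zero]

theorem t_MGD : J_MGD := by
  intro hB S q hq hS hbig
  unfold Mom
  rw [Metric.tendsto_atTop]
  intro ε hε
  obtain ⟨Θ₀, hΘ₀, hR⟩ := RR_small hB hq hS hbig (show 0 < ε / 4 by positivity)
  obtain ⟨Θ, hΘ1, hΘ2⟩ := ((eventually_ge_atTop Θ₀).and
    ((Metric.tendsto_nhds.1 (I_lim hq)) (ε / 4) (by positivity))).exists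
  have hM := (Metric.tendsto_nhds.1 (MM_lim hq hS (show 0 < Θ by linarith))) (ε / 4) (by positivity)
  obtain ⟨N, hN⟩ := eventually_atTop.1 ((hR.and hM).and ((tlog.eventually_gt_atTop 0).and
    (eventually_gt_atTop 0)))
  refine ⟨N, fun x hx => ?_⟩
  obtain ⟨⟨h1, h2⟩, h3, h4⟩ := hN x hx
  have hx0 : (0 : ℝ) < x := by exact_mod_cast h4
  have hpos : 0 < x * Real.log x ^ (q - 1) := by positivity
  obtain ⟨h5, h6⟩ := Fq_MM hq (S := S) hΘ₀ hΘ1 x
  rw [Real.dist_eq] at h2 hΘ2 ⊢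
  have h7 : |Fq q S x / (x * Real.log x ^ (q - 1)) - MM q S Θ x / (x * Real.log x ^ (q - 1))| ≤ ε / 4 := by
    rw [← sub_div, abs_div, abs_of_pos hpos, div_le_iff₀ hpos, abs_of_nonneg (by linarith)]
    linarith
  have e : Fq q S x / (x * Real.log x ^ (q - 1)) - Real.Gamma (q + 1) =
      (Fq q S x / (x * Real.log x ^ (q - 1)) - MM q S Θ x / (x * Real.log x ^ (q - 1))) +
      (MM q S Θ x / (x * Real.log x ^ (q - 1)) - ∫ t in Set.Ioc 0 Θ, q * t ^ (q - 1) * Real.exp (-t)) +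
      ((∫ t in Set.Ioc 0 Θ, q * t ^ (q - 1) * Real.exp (-t)) - Real.Gamma (q + 1)) := by ring
  rw [e]
  have a1 := abs_add_le ((Fq q S x / (x * Real.log x ^ (q - 1)) - MM q S Θ x / (x * Real.log x ^ (q - 1))) +
      (MM q S Θ x / (x * Real.log x ^ (q - 1)) - ∫ t in Set.Ioc 0 Θ, q * t ^ (q - 1) * Real.exp (-t)))
      ((∫ t in Set.Ioc 0 Θ, q * t ^ (q - 1) * Real.exp (-t)) - Real.Gamma (q + 1))
  have a2 := abs_add_le (Fq q S x / (x * Real.log x ^ (q - 1)) - MM q S Θ x / (x * Real.log x ^ (q - 1)))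
      (MM q S Θ x / (x * Real.log x ^ (q - 1)) - ∫ t in Set.Ioc 0 Θ, q * t ^ (q - 1) * Real.exp (-t))
  linarith

end Pool.Agent.Q47.MG
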