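import Pool.Agent.Q120.MGaps.Stm
import Pool.Agent.Q47.MG.Runs
import Pool.Agent.Q47.MG.MGU

/-!
# Project MG (helper120), job MGL: the long runs in the model
-/

set_option autoImplicit false

namespace Pool.Agent.Q47.MG

open Finset MeasureTheory Filter Pool.Agent.Q120.ET Pool.Agent.Q120.GM Pool.Agent.Q120.GE
open Pool.Agent.Q120.RZ Pool.Agent.Q120.SI Pool.Agent.Q120.MG Pool.Agent.Q184.LG
open scoped Topology

theorem gsum {B : ℝ} (hB : 1 < B) (K : ℕ) : ∑ i ∈ range K, B⁻¹ ^ i ≤ B / (B - 1) := by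
  have h1 := geom_sum_mul_neg B⁻¹ K
  have h2 : B⁻¹ < 1 := inv_lt_one_of_one_lt₀ hB
  have h3 : 0 < B⁻¹ := by positivity
  have h4 : 0 ≤ B⁻¹ ^ K := by positivity
  have h5 : B / (B - 1) = 1 / (1 - B⁻¹) := by
    have : B - 1 ≠ 0 := by linarith
    have : B ≠ 0 := by linarith
    have : 1 - B⁻¹ ≠ 0 := by linarith
    field_simp
  rw [h5, le_div_iff₀ (by linarith), h1]
  linarith

theorem wsum {B y : ℝ} (hB : 1 < B) (hy : 0 < y) (K : ℕ) :
    ∑ i ∈ range K, (if y * B ^ i < 1 then y * B ^ i else 0) ≤ B / (B - 1) := by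
  have hB1 : 0 < B - 1 := by linarith
  have hnn : ∀ i, 0 ≤ y * B ^ i := fun i => by positivity
  induction K with
  | zero =>
    rw [range_zero, sum_empty]
    positivity
  | succ K ih =>
    by_cases h : y * B ^ K < 1
    · have h1 : ∑ i ∈ range (K + 1), (if y * B ^ i < 1 then y * B ^ i else 0) ≤ ∑ i ∈ range (K + 1), y * B ^ i := by
        refine sum_le_sum (fun i _ => ?_)
        split_ifs
        · exact le_rfl
        · exact hnn i
      refine h1.trans ?_
      have h2 := geom_sum_mul B (K + 1)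
      rw [← mul_sum, le_div_iff₀ hB1, mul_assoc, h2, pow_succ]
      nlinarith
    · rw [sum_range_succ, if_neg h, add_zero]
      exact ih

theorem exists_theta (C d : ℝ) : ∃ θ : ℝ, 8 ≤ θ ∧ ∀ x : ℝ, θ ≤ x → 1 + C + d * Real.log x ≤ x / 16 := by
  have h1 := Real.isLittleO_log_id_atTop.def (show (0 : ℝ) < 1 / (32 * (|d| + 1)) by positivity)
  obtain ⟨θ, hθ⟩ := eventually_atTop.1 (h1.and (eventually_ge_atTop (32 * (1 + |C|))))
  refine ⟨max θ 8, le_max_right _ _, fun x hx => ?_⟩
  obtain ⟨h2, h3⟩ := hθ x ((le_max_left _ _).trans hx)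
  have hx8 : 8 ≤ x := (le_max_right _ _).trans hx
  have hl : 0 ≤ Real.log x := Real.log_nonneg (by linarith)
  rw [id, Real.norm_eq_abs, Real.norm_eq_abs, abs_of_nonneg hl, abs_of_nonneg (show 0 ≤ x by linarith)] at h2
  have h4 : d * Real.log x ≤ x / 32 := by
    have h5 : d * Real.log x ≤ (|d| + 1) * Real.log x := by
      apply mul_le_mul_of_nonneg_right _ hl
      linarith [le_abs_self d]
    have h6 := mul_le_mul_of_nonneg_left h2 (show 0 ≤ |d| + 1 by positivity)
    have e : (|d| + 1) * (1 / (32 * (|d| + 1)) * x) = x / 32 := by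
      field_simp
    rw [e] at h6
    linarith
  have h5 := le_abs_self C
  linarith

theorem ev_mgl {q c : ℝ} (hq : 1 < q) (hc : 0 < c) : ∀ᶠ k : ℕ in atTop, 2 ≤ k ∧
    ((k : ℝ) + 1) * Real.exp (-(c * ((2 : ℝ) ^ k / k) ^ (1 / q) / 16)) ≤
      Real.exp (-(c / 32 * ((2 : ℝ) ^ k / k) ^ (1 / q))) := by
  have hq0 : 0 < q := by linarith
  filter_upwards [eventually_ge_atTop 2, ev_rpow_ge (show (0 : ℝ) < 1 / 2 by norm_num) 1 1,
    ev_rpow_ge (show 0 < 1 / (2 * q) by positivity) 1 (32 / c)] with k hk h1 h2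
  have hk0 : (0 : ℝ) < k := by
    have : 0 < k := by omega
    exact_mod_cast this
  refine ⟨hk, ?_⟩
  rw [pow_one, one_mul] at h1
  rw [pow_one] at h2
  have h3 : (2 : ℝ) ^ ((1 / 2 : ℝ) * k) ≤ 2 ^ k / k := by
    rw [le_div_iff₀ hk0]
    have e : (2 : ℝ) ^ k = (2 : ℝ) ^ ((1 / 2 : ℝ) * k) * (2 : ℝ) ^ ((1 / 2 : ℝ) * k) := by
      rw [← Real.rpow_add (by norm_num), ← Real.rpow_natCast]
      congr 1
      ring
    rw [e]
    exact mul_le_mul_of_nonneg_left h1 (by positivity)
  have h4 : (2 : ℝ) ^ (1 / (2 * q) * k) ≤ ((2 : ℝ) ^ k / k) ^ (1 / q) := by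
    have h5 := Real.rpow_le_rpow (by positivity) h3 (show 0 ≤ 1 / q by positivity)
    rw [← Real.rpow_mul (by norm_num)] at h5
    have e : (1 / 2 : ℝ) * k * (1 / q) = 1 / (2 * q) * k := by
      field_simp
    rwa [e] at h5
  obtain ⟨Z, hZ⟩ : ∃ Z : ℝ, Z = ((2 : ℝ) ^ k / k) ^ (1 / q) := ⟨_, rfl⟩
  rw [← hZ] at h4 ⊢
  have h5 : 32 / c * k ≤ Z := h2.trans h4
  have h6 : (k : ℝ) ≤ c * Z / 32 := by
    rw [div_mul_eq_mul_div, div_le_iff₀ hc] at h5
    linarith
  have h7 : (k : ℝ) + 1 ≤ Real.exp k := Real.add_one_le_exp _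
  refine (mul_le_mul_of_nonneg_right h7 (Real.exp_pos _).le).trans ?_
  rw [← Real.exp_add, Real.exp_le_exp]
  linarith

theorem t_MGL : J_MGL := by
  classical
  intro q ε hq hε
  have hq0 : 0 < q := by linarith
  have hq1 : 0 < q - 1 := by linarith
  obtain ⟨B, hB⟩ : ∃ B : ℝ, B = (2 : ℝ) ^ (q - 1) := ⟨_, rfl⟩
  have hB1 : 1 < B := by rw [hB]; exact Real.one_lt_rpow (by norm_num) hq1
  obtain ⟨W₀, hW₀⟩ : ∃ W₀ : ℝ, W₀ = 2 * (B / (B - 1)) := ⟨_, rfl⟩
  have hW₀0 : 0 < W₀ := by
    rw [hW₀]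
    have : 0 < B - 1 := by linarith
    positivity
  obtain ⟨c₁, hc₁⟩ : ∃ c₁ : ℝ, c₁ = min 1 (ε / (2 * 2 ^ q * W₀)) := ⟨_, rfl⟩
  have hc₁0 : 0 < c₁ := by
    rw [hc₁]
    exact lt_min one_pos (by positivity)
  have hc₁1 : c₁ ≤ 1 := by rw [hc₁]; exact min_le_left _ _
  have hc₁2 : c₁ * (2 ^ q * W₀) < ε := by
    have h1 : c₁ ≤ ε / (2 * 2 ^ q * W₀) := by rw [hc₁]; exact min_le_right _ _
    rw [le_div_iff₀ (by positivity)] at h1
    linarith
  obtain ⟨θ, hθ8, hθ⟩ := exists_theta (Real.log (4 / c₁)) (2 * (q - 1))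
  have hθ0 : 0 < θ := by linarith
  refine ⟨θ, c₁ / 32, hθ0, by positivity, ?_⟩
  filter_upwards [ev_mgl hq hc₁0] with k hk
  obtain ⟨hk2, hfin⟩ := hk
  intro Ω _ μ _ A hA
  have hk0 : (2 : ℝ) ≤ k := by exact_mod_cast hk2
  have hkp : (0 : ℝ) < k := by linarith
  obtain ⟨Z, hZ⟩ : ∃ Z : ℝ, Z = ((2 : ℝ) ^ k / k) ^ (1 / q) := ⟨_, rfl⟩
  rw [← hZ] at hfin ⊢
  have hZ0 : 0 < Z := by rw [hZ]; positivity
  have hZq : Z ^ q = 2 ^ k / k := by
    rw [hZ, ← Real.rpow_mul (by positivity), one_div, inv_mul_cancel₀ hq0.ne', Real.rpow_one]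
  obtain ⟨x, hx⟩ : ∃ x : ℕ → ℝ, x = fun i => 2 ^ i * θ := ⟨_, rfl⟩
  have hx0 : ∀ i, 0 < x i := fun i => by rw [hx]; positivity
  have hxθ : ∀ i, θ ≤ x i := fun i => by
    rw [hx]
    exact le_mul_of_one_le_left hθ0.le (one_le_pow₀ (by norm_num))
  obtain ⟨y, hy⟩ : ∃ y : ℝ, y = (θ / Z) ^ (q - 1) := ⟨_, rfl⟩
  have hy0 : 0 < y := by rw [hy]; positivity
  have hBx : ∀ i : ℕ, y * B ^ i = (x i / Z) ^ (q - 1) := by
    intro i
    rw [hy, hB, hx, ← Real.rpow_natCast, ← Real.rpow_mul (by norm_num), mul_comm (q - 1),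
      Real.rpow_mul (by norm_num), ← Real.mul_rpow (by positivity) (by positivity), Real.rpow_natCast]
    congr 1
    ring
  obtain ⟨W, hW⟩ : ∃ W : ℕ → ℝ, W = fun i => B⁻¹ ^ i + if y * B ^ i < 1 then y * B ^ i else 0 := ⟨_, rfl⟩
  have hite : ∀ i : ℕ, 0 ≤ if y * B ^ i < 1 then y * B ^ i else 0 := by
    intro i
    split_ifs
    · positivity
    · exact le_rfl
  have hWb : ∀ i, B⁻¹ ^ i ≤ W i := fun i => by
    rw [hW]
    linarith [hite i]
  have hBi : ∀ i : ℕ, 0 < B⁻¹ ^ i := fun i => by positivity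
  have hW0 : ∀ i, 0 < W i := fun i => lt_of_lt_of_le (hBi i) (hWb i)
  have hWs : ∑ i ∈ range (k + 1), W i ≤ W₀ := by
    rw [hW, sum_add_distrib, hW₀]
    have h1 := gsum hB1 (k + 1)
    have h2 := wsum hB1 hy0 (k + 1)
    linarith
  have hWr : ∀ i, x i < Z → (x i / Z) ^ (q - 1) ≤ W i := by
    intro i hi
    have h1 : (x i / Z) ^ (q - 1) < 1 :=
      Real.rpow_lt_one (div_nonneg (hx0 i).le hZ0.le) ((div_lt_one hZ0).2 hi) hq1
    rw [hW]
    simp only
    rw [hBx, if_pos h1]
    linarith [hBi i]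
  obtain ⟨w, hw⟩ : ∃ w : ℕ → ℕ, w = fun i => ⌊x i * k / 2⌋₊ := ⟨_, rfl⟩
  have hw1 : ∀ i, (w i : ℝ) ≤ x i * k / 2 := fun i => by
    rw [hw]
    exact Nat.floor_le (by have := hx0 i; positivity)
  have hw2 : ∀ i, x i * k / 4 ≤ w i := fun i => by
    have h1 := Nat.sub_one_lt_floor (x i * k / 2)
    have h2 := hxθ i
    have h3 : (16 : ℝ) ≤ x i * k := by nlinarith
    rw [hw]
    simp only
    linarith
  have hw3 : ∀ i, 1 ≤ w i := fun i => by
    have h1 := hw2 i
    have h2 := hxθ i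
    have h3 : (16 : ℝ) ≤ x i * k := by nlinarith
    have h4 : (1 : ℝ) ≤ w i := by linarith
    exact_mod_cast h4
  obtain ⟨mr, hmr⟩ : ∃ mr : ℕ → ℝ, mr = fun i => c₁ * (2 ^ k / k) * W i / x i ^ q := ⟨_, rfl⟩
  have hmr0 : ∀ i, 0 < mr i := fun i => by
    rw [hmr]
    have := hW0 i
    have := hx0 i
    positivity
  obtain ⟨m, hm⟩ : ∃ m : ℕ → ℕ, m = fun i => max 1 ⌈mr i⌉₊ := ⟨_, rfl⟩
  have hm1 : ∀ i, 1 ≤ m i := fun i => by rw [hm]; exact le_max_left _ _
  have hm2 : ∀ i, mr i ≤ m i := fun i => by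
    rw [hm]
    refine (Nat.le_ceil _).trans ?_
    exact_mod_cast le_max_right _ _
  have hsub : {ω | ε * 2 ^ k * (k : ℝ) ^ (q - 1) ≤ big q θ k (tr A (block k) ω)} ⊆
      ⋃ i ∈ range (k + 1), {ω | m i ≤ nr k (2 * w i) (tr A (block k) ω)} := by
    intro ω hω
    have hω' : ε * 2 ^ k * (k : ℝ) ^ (q - 1) ≤ big q θ k (tr A (block k) ω) := hω
    have hT : tr A (block k) ω ⊆ block k := fun n hn => (mem_tr.1 hn).1
    have h1 := big_le (θ := θ) hT hq0.le (fun i => 2 * w i) (fun i => 2 * x i * k)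
      (fun i => by have := hx0 i; positivity) (fun g hg1 hg2 hg3 => by
        have hex : ∃ i : ℕ, (g : ℝ) ≤ 2 * x i * k := by
          refine ⟨k, ?_⟩
          have h2 : (g : ℝ) ≤ 2 ^ k + 1 := by exact_mod_cast hg2
          have h3 : (1 : ℝ) ≤ 2 ^ k := one_le_pow₀ (by norm_num)
          rw [hx]
          simp only
          have h4 : (1 : ℝ) ≤ θ * k := by nlinarith
          have h5 : 2 * (2 ^ k * θ) * (k : ℝ) = 2 * 2 ^ k * (θ * k) := by ring
          rw [h5]
          nlinarith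
        have hfs := Nat.find_spec hex
        have hmin : ∀ j, j < Nat.find hex → ¬ (g : ℝ) ≤ 2 * x j * k := fun j hj => Nat.find_min hex hj
        have hle : Nat.find hex ≤ k := by
          apply Nat.find_min'
          have h2 : (g : ℝ) ≤ 2 ^ k + 1 := by exact_mod_cast hg2
          have h3 : (1 : ℝ) ≤ 2 ^ k := one_le_pow₀ (by norm_num)
          rw [hx]
          simp only
          have h4 : (1 : ℝ) ≤ θ * k := by nlinarith
          have h5 : 2 * (2 ^ k * θ) * (k : ℝ) = 2 * 2 ^ k * (θ * k) := by ring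
          rw [h5]
          nlinarith
        obtain ⟨i, hi⟩ : ∃ i, i = Nat.find hex := ⟨_, rfl⟩
        rw [← hi] at hfs hmin hle
        refine ⟨i, by rw [mem_range]; omega, ?_, hfs⟩
        have h6 : x i * k < (g : ℝ) := by
          rcases Nat.eq_zero_or_pos i with h0 | h0
          · rw [h0, hx]
            simp only
            rw [pow_zero, one_mul]
            exact hg3
          · obtain ⟨j, rfl⟩ : ∃ j, i = j + 1 := ⟨i - 1, by omega⟩
            have h7 := hmin j (Nat.lt_succ_self j)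
            push Not at h7
            have e : x (j + 1) = 2 * x j := by
              rw [hx]
              simp only
              ring
            rw [e]
            exact h7
        have h7 := hw1 i
        have h8 : ((2 * w i : ℕ) : ℝ) ≤ g := by
          push_cast
          linarith
        exact_mod_cast h8)
    have h2 := hω'.trans h1
    rw [Set.mem_iUnion₂]
    by_contra hcon
    push Not at hcon
    have h3 : ∀ i ∈ range (k + 1), (nr k (2 * w i) (tr A (block k) ω) : ℝ) * (2 * x i * k) ^ q ≤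
        mr i * (2 * x i * k) ^ q := by
      intro i hi
      have h4 := hcon i hi
      have h5 : nr k (2 * w i) (tr A (block k) ω) < m i := by
        by_contra h
        exact h4 (not_lt.1 h)
      apply mul_le_mul_of_nonneg_right _ (by have := hx0 i; positivity)
      rw [hm] at h5
      simp only at h5
      rcases lt_max_iff.1 h5 with h6 | h6
      · have h7 : nr k (2 * w i) (tr A (block k) ω) = 0 := by omega
        rw [h7, Nat.cast_zero]
        exact (hmr0 i).le
      · exact (Nat.lt_ceil.1 h6).le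
    have h4 : ∑ i ∈ range (k + 1), mr i * (2 * x i * k) ^ q = c₁ * 2 ^ q * (2 ^ k * (k : ℝ) ^ (q - 1)) *
        ∑ i ∈ range (k + 1), W i := by
      rw [mul_sum]
      refine sum_congr rfl (fun i _ => ?_)
      rw [hmr]
      simp only
      have h5 := hx0 i
      rw [Real.mul_rpow (by positivity) hkp.le, Real.mul_rpow (by norm_num) h5.le]
      have e : (k : ℝ) ^ q = k * (k : ℝ) ^ (q - 1) := by
        nth_rewrite 2 [← Real.rpow_one (k : ℝ)]
        rw [← Real.rpow_add hkp]
        congr 1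
        ring
      rw [e]
      have h6 : 0 < x i ^ q := by positivity
      field_simp
    have h5 := h2.trans (sum_le_sum h3)
    rw [h4] at h5
    have h6 : (0 : ℝ) < 2 ^ k * (k : ℝ) ^ (q - 1) := by positivity
    have h7 : c₁ * 2 ^ q * (2 ^ k * (k : ℝ) ^ (q - 1)) * ∑ i ∈ range (k + 1), W i ≤
        c₁ * 2 ^ q * (2 ^ k * (k : ℝ) ^ (q - 1)) * W₀ := mul_le_mul_of_nonneg_left hWs (by positivity)
    have h8 : c₁ * 2 ^ q * (2 ^ k * (k : ℝ) ^ (q - 1)) * W₀ < ε * 2 ^ k * (k : ℝ) ^ (q - 1) := by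
      have e1 : c₁ * 2 ^ q * (2 ^ k * (k : ℝ) ^ (q - 1)) * W₀ =
          c₁ * (2 ^ q * W₀) * (2 ^ k * (k : ℝ) ^ (q - 1)) := by ring
      have e2 : ε * 2 ^ k * (k : ℝ) ^ (q - 1) = ε * (2 ^ k * (k : ℝ) ^ (q - 1)) := by ring
      rw [e1, e2]
      exact mul_lt_mul_of_pos_right hc₁2 h6
    linarith
  have hone : ∀ i ∈ range (k + 1), μ.real {ω | m i ≤ nr k (2 * w i) (tr A (block k) ω)} ≤
      Real.exp (-(c₁ * Z / 16)) := by
    intro i _
    refine (nr_cell hk2 (hw3 i) hA).trans ?_
    have hl2b := Real.log_two_lt_d9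
    have hl2a := Real.log_two_gt_d9
    have hxi := hx0 i
    have hwp : (0 : ℝ) < w i := by exact_mod_cast hw3 i
    have hmp : (0 : ℝ) < m i := by exact_mod_cast hm1 i
    have hmi := hmr0 i
    have hch : ((2 ^ k / w i).choose (m i) : ℝ) ≤
        Real.exp (m i * (Real.log (4 / c₁) + 2 * (q - 1) * Real.log (x i) + 1)) := by
      rcases Nat.eq_zero_or_pos (2 ^ k / w i) with h0 | h0
      · rw [h0, Nat.choose_eq_zero_of_lt (hm1 i), Nat.cast_zero]
        exact (Real.exp_pos _).le
      · apply choose_bd _ _ (hm1 i) _ _ h0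
        have h1 : ((2 ^ k / w i : ℕ) : ℝ) ≤ 2 ^ k / w i := by
          refine Nat.cast_div_le.trans ?_
          push_cast
          exact le_rfl
        have h2 : Real.log ((2 ^ k / w i : ℕ) : ℝ) ≤ Real.log (2 ^ k / w i) :=
          Real.log_le_log (by exact_mod_cast h0) h1
        have h3 : Real.log (mr i) ≤ Real.log (m i) := Real.log_le_log hmi (hm2 i)
        have h4 : Real.log (2 ^ k / w i) - Real.log (mr i) ≤
            Real.log (4 / c₁) + 2 * (q - 1) * Real.log (x i) := by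
          rw [← Real.log_div (by positivity) hmi.ne']
          have e1 : Real.log (4 / c₁) + 2 * (q - 1) * Real.log (x i) =
              Real.log (4 / c₁ * (x i ^ (q - 1) * x i ^ (q - 1))) := by
            have hxq : (x i ^ (q - 1)) ≠ 0 := by positivity
            rw [Real.log_mul (by positivity) (mul_ne_zero hxq hxq), Real.log_mul hxq hxq,
              Real.log_rpow hxi]
            ring
          rw [e1]
          apply Real.log_le_log (by positivity)
          have h5 : 2 ^ k / (w i : ℝ) ≤ 4 * (2 ^ k / k) / x i := by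
            rw [div_le_div_iff₀ hwp hxi]
            have h6 := hw2 i
            have h7 : (2 : ℝ) ^ k * x i = 4 * (2 ^ k / k) * (x i * k / 4) := by
              field_simp
            rw [h7]
            exact mul_le_mul_of_nonneg_left h6 (by positivity)
          have h6 : x i ^ (q - 1) / W i ≤ x i ^ (q - 1) * x i ^ (q - 1) := by
            rw [div_le_iff₀ (hW0 i), mul_assoc]
            apply le_mul_of_one_le_right (by positivity)
            have h7 := hWb i
            have h8 : B ^ i ≤ x i ^ (q - 1) := by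
              rw [hB, ← Real.rpow_natCast, ← Real.rpow_mul (by norm_num), mul_comm (q - 1),
                Real.rpow_mul (by norm_num), Real.rpow_natCast]
              apply Real.rpow_le_rpow (by positivity) _ hq1.le
              rw [hx]
              exact le_mul_of_one_le_right (by positivity) (by linarith)
            have h9 : B ^ i * B⁻¹ ^ i = 1 := by
              rw [← mul_pow, mul_inv_cancel₀ (by linarith), one_pow]
            calc (1 : ℝ) = B ^ i * B⁻¹ ^ i := h9.symm
              _ ≤ x i ^ (q - 1) * W i := mul_le_mul h8 h7 (hBi i).le (by positivity)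
          have h7 : 4 * ((2 : ℝ) ^ k / k) / x i / mr i = 4 / c₁ * (x i ^ (q - 1) / W i) := by
            rw [hmr]
            simp only
            have h8 : x i ^ q = x i * x i ^ (q - 1) := by
              nth_rewrite 2 [← Real.rpow_one (x i)]
              rw [← Real.rpow_add hxi]
              congr 1
              ring
            rw [h8]
            have h9 := (hW0 i).ne'
            have h10 : x i ^ (q - 1) ≠ 0 := by positivity
            field_simp
          calc 2 ^ k / (w i : ℝ) / mr i ≤ 4 * (2 ^ k / k) / x i / mr i :=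
                div_le_div_of_nonneg_right h5 hmi.le
            _ = 4 / c₁ * (x i ^ (q - 1) / W i) := h7
            _ ≤ 4 / c₁ * (x i ^ (q - 1) * x i ^ (q - 1)) := mul_le_mul_of_nonneg_left h6 (by positivity)
        linarith
    refine (mul_le_mul_of_nonneg_right hch (Real.exp_pos _).le).trans ?_
    rw [← Real.exp_add, Real.exp_le_exp]
    have h1 := hθ (x i) (hxθ i)
    have h2 : x i / 8 ≤ w i / ((k + 1) * Real.log 2) := by
      rw [le_div_iff₀ (by positivity)]
      have h3 := hw2 i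
      have h4 : x i / 8 * ((k + 1) * Real.log 2) ≤ x i * k / 4 := by
        have h5 : ((k : ℝ) + 1) * Real.log 2 ≤ 2 * k := by
          have h51 : ((k : ℝ) + 1) * Real.log 2 ≤ (k + 1) * 1 :=
            mul_le_mul_of_nonneg_left (by linarith) (by linarith)
          linarith
        have h52 := mul_le_mul_of_nonneg_left h5 (show 0 ≤ x i / 8 by positivity)
        linarith
      linarith
    have h3 : (m i : ℝ) * (Real.log (4 / c₁) + 2 * (q - 1) * Real.log (x i) + 1) ≤ m i * (x i / 16) :=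
      mul_le_mul_of_nonneg_left (by linarith) hmp.le
    have h4 : (m i : ℝ) * (x i / 8) ≤ m i * (w i / ((k + 1) * Real.log 2)) :=
      mul_le_mul_of_nonneg_left h2 hmp.le
    have e : (((m i * w i : ℕ) : ℝ)) / ((k + 1) * Real.log 2) = m i * (w i / ((k + 1) * Real.log 2)) := by
      push_cast
      ring
    rw [e]
    have h5 : c₁ * Z ≤ m i * x i := by
      rcases lt_or_ge (x i) Z with hxZ | hxZ
      · have h6 := hWr i hxZ
        have h7 : c₁ * Z ≤ mr i * x i := by
          rw [hmr]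
          simp only
          rw [← hZq]
          have h8 : x i ^ q = x i * x i ^ (q - 1) := by
            nth_rewrite 2 [← Real.rpow_one (x i)]
            rw [← Real.rpow_add hxi]
            congr 1
            ring
          have h9 : Z ^ q = Z * Z ^ (q - 1) := by
            nth_rewrite 2 [← Real.rpow_one Z]
            rw [← Real.rpow_add hZ0]
            congr 1
            ring
          rw [Real.div_rpow hxi.le hZ0.le, div_le_iff₀ (by positivity)] at h6
          have h10 : 0 < x i ^ (q - 1) := by positivity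
          have h11 : c₁ * (Z * Z ^ (q - 1)) * W i / (x i * x i ^ (q - 1)) * x i =
              c₁ * Z * (W i * Z ^ (q - 1)) / x i ^ (q - 1) := by
            field_simp
          rw [h8, h9, h11, le_div_iff₀ h10]
          exact mul_le_mul_of_nonneg_left h6 (by positivity)
        exact h7.trans (mul_le_mul_of_nonneg_right (hm2 i) hxi.le)
      · have h6 : (1 : ℝ) ≤ m i := by exact_mod_cast hm1 i
        calc c₁ * Z ≤ 1 * Z := mul_le_mul_of_nonneg_right hc₁1 hZ0.le
          _ ≤ m i * x i := mul_le_mul h6 hxZ hZ0.le hmp.le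
    linarith
  calc μ.real {ω | ε * 2 ^ k * (k : ℝ) ^ (q - 1) ≤ big q θ k (tr A (block k) ω)} ≤
        μ.real (⋃ i ∈ range (k + 1), {ω | m i ≤ nr k (2 * w i) (tr A (block k) ω)}) :=
        measureReal_mono hsub (measure_ne_top _ _)
    _ ≤ ∑ i ∈ range (k + 1), μ.real {ω | m i ≤ nr k (2 * w i) (tr A (block k) ω)} :=
        measureReal_biUnion_finset_le _ _
    _ ≤ ∑ _i ∈ range (k + 1), Real.exp (-(c₁ * Z / 16)) := sum_le_sum hone
    _ = ((k : ℝ) + 1) * Real.exp (-(c₁ * Z / 16)) := by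
        rw [sum_const, card_range, nsmul_eq_mul]
        push_cast
        ring
    _ ≤ _ := hfin

end Pool.Agent.Q47.MG
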