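import Pool.Agent.Q120.MGaps.Stm
import Pool.Agent.Q47.MG.Bern
import Pool.Agent.Q47.MG.MGC
import Pool.Agent.Q111.GE.LAW
import Pool.Agent.Q184.LG.GUP

/-!
# Project MG (helper120), job MGS: the short gaps in the model
-/

set_option autoImplicit false

namespace Pool.Agent.Q47.MG

open Finset MeasureTheory Filter Pool.Agent.Q120.ET Pool.Agent.Q120.GM Pool.Agent.Q120.GE
open Pool.Agent.Q120.RZ Pool.Agent.Q120.SI Pool.Agent.Q120.MG Pool.Agent.Q259.RM Pool.Agent.Q111.GE
open Pool.Agent.Q184.LG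
open scoped Topology

open Classical in
/-- the counted set -/
noncomputable def Cs (t : ℝ) (k v : ℕ) (T : Finset ℕ) : Finset ℕ :=
  (Ico (2 ^ k) v).filter (fun a => a ∈ T ∧ ∀ n ∈ T, ¬ (a < n ∧ (n : ℝ) ≤ a + t * Real.log a))

theorem mem_Cs {t : ℝ} {k v : ℕ} {T : Finset ℕ} {a : ℕ} : a ∈ Cs t k v T ↔
    a ∈ Ico (2 ^ k) v ∧ a ∈ T ∧ ∀ n ∈ T, ¬ (a < n ∧ (n : ℝ) ≤ a + t * Real.log a) := by
  classical
  unfold Cs
  rw [mem_filter]

/-- changing one element changes the count by at most one -/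
theorem cn2_bd (t : ℝ) (k v : ℕ) (T : Finset ℕ) (n : ℕ) :
    |(cn2 t k v (insert n T) : ℝ) - cn2 t k v T| ≤ 1 := by
  classical
  obtain ⟨C, hC⟩ : ∃ C : Finset ℕ → Finset ℕ, C = Cs t k v := ⟨_, rfl⟩
  have hcn : ∀ T, cn2 t k v T = (C T).card := by
    intro T
    rw [hC]
    rfl
  have h1 : (C (insert n T)).card ≤ (C T).card + 1 := by
    refine (card_le_card (t := insert n (C T)) ?_).trans (card_insert_le _ _)
    intro a ha
    rw [hC, mem_Cs] at ha
    rw [mem_insert, hC, mem_Cs]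
    obtain ⟨h2, h3, h4⟩ := ha
    rcases mem_insert.1 h3 with h5 | h5
    · exact Or.inl h5
    · exact Or.inr ⟨h2, h5, fun m hm => h4 m (mem_insert_of_mem hm)⟩
  have h2 : (C T).card ≤ (C (insert n T)).card + 1 := by
    have hsub : C T ⊆ C (insert n T) ∪ (C T).filter (fun a => a < n ∧ (n : ℝ) ≤ a + t * Real.log a) := by
      intro a ha
      rw [mem_union, mem_filter]
      by_cases h3 : a < n ∧ (n : ℝ) ≤ a + t * Real.log a
      · exact Or.inr ⟨ha, h3⟩
      · left
        rw [hC, mem_Cs] at ha ⊢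
        obtain ⟨h4, h5, h6⟩ := ha
        refine ⟨h4, mem_insert_of_mem h5, fun m hm => ?_⟩
        rcases mem_insert.1 hm with h7 | h7
        · rw [h7]
          exact h3
        · exact h6 m h7
    refine (card_le_card hsub).trans ((card_union_le _ _).trans (Nat.add_le_add_left ?_ _))
    rw [card_le_one]
    intro a ha b hb
    rw [mem_filter, hC, mem_Cs] at ha hb
    obtain ⟨⟨_, a1, a2⟩, a3, a4⟩ := ha
    obtain ⟨⟨_, b1, b2⟩, b3, b4⟩ := hb
    by_contra hne
    rcases Nat.lt_or_gt_of_ne hne with h | h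
    · refine a2 b b1 ⟨h, ?_⟩
      have : (b : ℝ) ≤ n := by exact_mod_cast b3.le
      linarith
    · refine b2 a a1 ⟨h, ?_⟩
      have : (a : ℝ) ≤ n := by exact_mod_cast a3.le
      linarith
  rw [hcn, hcn, abs_le]
  have h1' : ((C (insert n T)).card : ℝ) ≤ (C T).card + 1 := by exact_mod_cast h1
  have h2' : ((C T).card : ℝ) ≤ (C (insert n T)).card + 1 := by exact_mod_cast h2
  constructor <;> linarith

/-- the window of `a` -/
noncomputable def Wd (t : ℝ) (k a : ℕ) : Finset ℕ :=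
  (block k).filter (fun n => a < n ∧ (n : ℝ) ≤ a + t * Real.log a)

theorem Ex_one {θ : ℕ → ℝ} {t : ℝ} {k a : ℕ} (ha : a ∈ block k) :
    Ex θ (block k) (fun T => by classical exact
      if a ∈ T ∧ ∀ n ∈ T, ¬ (a < n ∧ (n : ℝ) ≤ a + t * Real.log a) then (1 : ℝ) else 0) =
      θ a * ∏ n ∈ Wd t k a, (1 - θ n) := by
  classical
  have h1 := Ex_prod (θ := θ) (P := block k) (fun p => if p ∉ Wd t k a then 1 else 0)
    (fun p => if p ≠ a then 1 else 0)
  have haW : a ∉ Wd t k a := by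
    unfold Wd
    rw [mem_filter]
    rintro ⟨_, h, _⟩
    exact lt_irrefl _ h
  have hna : ∀ n ∈ Wd t k a, n ≠ a := fun n hn h => by
    subst h
    exact haW hn
  have h2 : ∏ p ∈ block k, (θ p * (if p ∉ Wd t k a then 1 else 0) + (1 - θ p) * (if p ≠ a then 1 else 0)) =
      θ a * ∏ n ∈ Wd t k a, (1 - θ n) := by
    rw [← mul_prod_erase _ _ ha]
    congr 1
    · rw [if_pos haW, if_neg (by simp)]
      ring
    · have hW : Wd t k a ⊆ (block k).erase a := by
        intro n hn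
        rw [mem_erase]
        refine ⟨hna n hn, ?_⟩
        unfold Wd at hn
        exact (mem_filter.1 hn).1
      rw [← prod_sdiff hW]
      rw [prod_eq_one, one_mul]
      · refine prod_congr rfl (fun n hn => ?_)
        rw [if_neg (not_not.2 hn), if_pos (hna n hn)]
        ring
      · intro n hn
        rw [Finset.mem_sdiff, mem_erase] at hn
        rw [if_pos hn.2, if_pos hn.1.1]
        ring
  rw [← h2, ← h1]
  apply Ex_congr
  intro T hT
  rw [prod_ite_zero, prod_ite_zero]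
  simp only [prod_const_one]
  by_cases h3 : a ∈ T ∧ ∀ n ∈ T, ¬ (a < n ∧ (n : ℝ) ≤ a + t * Real.log a)
  · rw [if_pos h3, if_pos, if_pos, one_mul]
    · intro p hp hpa
      rw [Finset.mem_sdiff] at hp
      exact hp.2 (hpa ▸ h3.1)
    · intro p hp hpW
      unfold Wd at hpW
      exact h3.2 p hp (mem_filter.1 hpW).2
  · rw [if_neg h3]
    by_cases h4 : a ∈ T
    · have h5 : ¬ ∀ n ∈ T, ¬ (a < n ∧ (n : ℝ) ≤ a + t * Real.log a) := fun h => h3 ⟨h4, h⟩
      rw [if_neg (c := ∀ i ∈ T, i ∉ Wd t k a), zero_mul]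
      intro h6
      apply h5
      intro n hn hn2
      refine h6 n hn ?_
      unfold Wd
      rw [mem_filter]
      exact ⟨hT hn, hn2⟩
    · rw [if_neg (c := ∀ i ∈ block k \ T, i ≠ a), mul_zero]
      intro h6
      exact h6 a (Finset.mem_sdiff.2 ⟨ha, h4⟩) rfl

theorem Ex_cn2 {θ : ℕ → ℝ} {t : ℝ} {k v : ℕ} (hv : v ≤ 2 ^ (k + 1)) :
    Ex θ (block k) (fun T => (cn2 t k v T : ℝ)) =
      ∑ a ∈ Ico (2 ^ k) v, θ a * ∏ n ∈ Wd t k a, (1 - θ n) := by
  classical
  have h1 : ∀ T, (cn2 t k v T : ℝ) = ∑ a ∈ Ico (2 ^ k) v,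
      if a ∈ T ∧ ∀ n ∈ T, ¬ (a < n ∧ (n : ℝ) ≤ a + t * Real.log a) then (1 : ℝ) else 0 := by
    intro T
    unfold cn2
    rw [sum_boole]
  simp_rw [h1]
  rw [Ex_sum]
  refine sum_congr rfl (fun a ha => ?_)
  rw [mem_Ico] at ha
  exact Ex_one (by rw [block, mem_Ico]; omega)

theorem real_Ex {Ω : Type} [MeasurableSpace Ω] {μ : Measure Ω} [IsProbabilityMeasure μ] {A : Ω → Set ℕ}
    (hA : IsModel μ pc A) (B : Finset ℕ) (F : Finset ℕ → Prop) [DecidablePred F] :
    μ.real {ω | F (tr A B ω)} = Ex pc B (fun T => if F T then 1 else 0) := by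
  classical
  rw [real_event hA.meas B F, sum_filter]
  unfold Ex
  refine sum_congr rfl (fun T hT => ?_)
  rw [(t_LAW Ω μ A).1 pc hA B T (mem_powerset.1 hT)]
  unfold mu
  beta_reduce
  by_cases hF : F T
  · rw [if_pos hF, if_pos hF, mul_one]
  · rw [if_neg hF, if_neg hF, mul_zero]

/-- the asymptotic value of the terms of the mean -/
theorem term_ev {t δ : ℝ} (ht : 0 ≤ t) (hδ : 0 < δ) : ∀ᶠ k : ℕ in atTop, ∀ a ∈ block k,
    0 ≤ pc a * ∏ n ∈ Wd t k a, (1 - pc n) ∧
    pc a * ∏ n ∈ Wd t k a, (1 - pc n) ≤ 1 / (k * Real.log 2) ∧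
    (Real.exp (-t) - δ) / (k * Real.log 2) ≤ pc a * ∏ n ∈ Wd t k a, (1 - pc n) ∧
    ((a : ℝ) + t * Real.log a < 2 ^ (k + 1) →
      pc a * ∏ n ∈ Wd t k a, (1 - pc n) ≤ (Real.exp (-t) + δ) / (k * Real.log 2)) := by
  have hl2 : 0 < Real.log 2 := Real.log_pos (by norm_num)
  have hl2a := Real.log_two_gt_d9
  have hl2b := Real.log_two_lt_d9
  have hc : Tendsto (fun k : ℕ => (k : ℝ)) atTop atTop := tendsto_natCast_atTop_atTop
  have hinv : Tendsto (fun k : ℕ => 1 / (k : ℝ)) atTop (𝓝 0) := tendsto_one_div_atTop_nhds_zero_nat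
  -- lower limit
  have hlo : Tendsto (fun k : ℕ => 1 / (1 + 1 / (k : ℝ)) *
      Real.exp (-(t * (1 + 1 / (k : ℝ)) * Real.log 2 / (Real.log 2 - 1 / (k : ℝ))))) atTop (𝓝 (Real.exp (-t))) := by
    have h1 : Tendsto (fun k : ℕ => 1 + 1 / (k : ℝ)) atTop (𝓝 (1 + 0)) := hinv.const_add 1
    have h2 : Tendsto (fun k : ℕ => Real.log 2 - 1 / (k : ℝ)) atTop (𝓝 (Real.log 2 - 0)) := hinv.const_sub _
    rw [add_zero] at h1
    rw [sub_zero] at h2
    have h3 : Tendsto (fun k : ℕ => 1 / (1 + 1 / (k : ℝ))) atTop (𝓝 (1 / 1)) :=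
      tendsto_const_nhds.div h1 (by norm_num)
    have h4 : Tendsto (fun k : ℕ => t * (1 + 1 / (k : ℝ)) * Real.log 2 / (Real.log 2 - 1 / (k : ℝ))) atTop
        (𝓝 (t * 1 * Real.log 2 / Real.log 2)) := ((h1.const_mul t).mul_const _).div h2 hl2.ne'
    have h5 := h3.mul ((Real.continuous_exp.tendsto _).comp h4.neg)
    have e : 1 / 1 * Real.exp (-(t * 1 * Real.log 2 / Real.log 2)) = Real.exp (-t) := by
      rw [mul_div_assoc, div_self hl2.ne']
      simp
    rw [e] at h5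
    exact h5
  -- upper limit
  have hhi : Tendsto (fun k : ℕ => Real.exp (-((t * Real.log 2 - 1 / (k : ℝ)) / ((1 + 1 / (k : ℝ)) * Real.log 2)))) atTop
      (𝓝 (Real.exp (-t))) := by
    have h1 : Tendsto (fun k : ℕ => 1 + 1 / (k : ℝ)) atTop (𝓝 (1 + 0)) := hinv.const_add 1
    rw [add_zero] at h1
    have h2 : Tendsto (fun k : ℕ => t * Real.log 2 - 1 / (k : ℝ)) atTop (𝓝 (t * Real.log 2 - 0)) := hinv.const_sub _
    rw [sub_zero] at h2
    have h3 : Tendsto (fun k : ℕ => (t * Real.log 2 - 1 / (k : ℝ)) / ((1 + 1 / (k : ℝ)) * Real.log 2)) atTop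
        (𝓝 (t * Real.log 2 / (1 * Real.log 2))) := h2.div (h1.mul_const _) (by rw [one_mul]; exact hl2.ne')
    have h5 := (Real.continuous_exp.tendsto _).comp h3.neg
    have e : Real.exp (-(t * Real.log 2 / (1 * Real.log 2))) = Real.exp (-t) := by
      rw [one_mul, mul_div_assoc, div_self hl2.ne', mul_one]
    rw [e] at h5
    exact h5
  filter_upwards [hlo.eventually_const_le (show Real.exp (-t) - δ < Real.exp (-t) by linarith),
    hhi.eventually_le_const (show Real.exp (-t) < Real.exp (-t) + δ by linarith), eventually_ge_atTop 4]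
    with k hk1 hk2 hk4 a ha
  have hk0 : (4 : ℝ) ≤ k := by exact_mod_cast hk4
  have hkp : (0 : ℝ) < k := by linarith
  have hkl : 1 < (k : ℝ) * Real.log 2 := by nlinarith
  have hkl0 : 0 < (k : ℝ) * Real.log 2 := by linarith
  have hk1l : 0 < ((k : ℝ) + 1) * Real.log 2 := by positivity
  have hpc : ∀ n ∈ block k, 1 / (((k : ℝ) + 1) * Real.log 2) ≤ pc n ∧ pc n ≤ 1 / (k * Real.log 2) := by
    intro n hn
    rw [pc_block (by omega) hn]
    rw [block, mem_Ico] at hn
    obtain ⟨h1, h2⟩ := log_bounds hn.1 hn.2.le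
    constructor
    · exact one_div_le_one_div_of_le (by linarith) h2
    · exact one_div_le_one_div_of_le hkl0 h1
  have hx1 : 1 / ((k : ℝ) * Real.log 2) < 1 := by rw [div_lt_one hkl0]; exact hkl
  have hWb : ∀ n ∈ Wd t k a, n ∈ block k := fun n hn => by
    unfold Wd at hn
    exact (mem_filter.1 hn).1
  have hfac : ∀ n ∈ Wd t k a, 0 ≤ 1 - pc n ∧ 1 - pc n ≤ 1 := by
    intro n hn
    have := hpc n (hWb n hn)
    have h0 : 0 ≤ 1 / (((k : ℝ) + 1) * Real.log 2) := by positivity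
    constructor <;> linarith
  have hpa := hpc a ha
  have hpa0 : 0 ≤ pc a := le_trans (by positivity) hpa.1
  have hprod0 : 0 ≤ ∏ n ∈ Wd t k a, (1 - pc n) := prod_nonneg (fun n hn => (hfac n hn).1)
  have hprod1 : ∏ n ∈ Wd t k a, (1 - pc n) ≤ 1 := prod_le_one (fun n hn => (hfac n hn).1) (fun n hn => (hfac n hn).2)
  have ha0 := ha
  rw [block, mem_Ico] at ha0
  have hla := log_bounds ha0.1 ha0.2.le
  refine ⟨mul_nonneg hpa0 hprod0, ?_, ?_, ?_⟩
  · calc pc a * ∏ n ∈ Wd t k a, (1 - pc n) ≤ 1 / (k * Real.log 2) * 1 :=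
        mul_le_mul hpa.2 hprod1 hprod0 (by positivity)
      _ = _ := mul_one _
  · -- lower bound
    have hcard : ((Wd t k a).card : ℝ) ≤ t * ((k + 1) * Real.log 2) := by
      have h1 : Wd t k a ⊆ Ioc a (a + ⌊t * Real.log a⌋₊) := by
        intro n hn
        unfold Wd at hn
        rw [mem_filter] at hn
        rw [mem_Ioc]
        refine ⟨hn.2.1, ?_⟩
        have h2 : ((n - a : ℕ) : ℝ) ≤ t * Real.log a := by
          rw [Nat.cast_sub hn.2.1.le]
          linarith [hn.2.2]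
        have h3 := Nat.le_floor h2
        omega
      have h2 := card_le_card h1
      rw [Nat.card_Ioc] at h2
      have h3 : (Wd t k a).card ≤ ⌊t * Real.log a⌋₊ := by omega
      have h4 : ((Wd t k a).card : ℝ) ≤ (⌊t * Real.log a⌋₊ : ℝ) := by exact_mod_cast h3
      have h5 : (⌊t * Real.log a⌋₊ : ℝ) ≤ t * Real.log a :=
        Nat.floor_le (mul_nonneg ht (Real.log_natCast_nonneg a))
      have h6 : t * Real.log a ≤ t * ((k + 1) * Real.log 2) := mul_le_mul_of_nonneg_left hla.2 ht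
      linarith
    have h1 : Real.exp (-(t * ((k + 1) * Real.log 2) / (k * Real.log 2 - 1))) ≤ ∏ n ∈ Wd t k a, (1 - pc n) := by
      have h2 : (1 - 1 / ((k : ℝ) * Real.log 2)) ^ (Wd t k a).card ≤ ∏ n ∈ Wd t k a, (1 - pc n) := by
        rw [← prod_const]
        refine prod_le_prod (fun n _ => by linarith) (fun n hn => ?_)
        linarith [(hpc n (hWb n hn)).2]
      refine le_trans ?_ h2
      have h3 : Real.exp (-(1 / (k * Real.log 2 - 1))) ≤ 1 - 1 / ((k : ℝ) * Real.log 2) := by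
        have hy : 0 < 1 - 1 / ((k : ℝ) * Real.log 2) := by linarith
        rw [← Real.le_log_iff_exp_le hy]
        refine le_trans (le_of_eq ?_) (Real.one_sub_inv_le_log_of_pos hy)
        have h4 : (k : ℝ) * Real.log 2 - 1 ≠ 0 := by linarith
        have h5 : 1 - 1 / ((k : ℝ) * Real.log 2) = (k * Real.log 2 - 1) / (k * Real.log 2) := by
          field_simp
        rw [h5, inv_div]
        field_simp
        ring
      have h4 : Real.exp (-(1 / (k * Real.log 2 - 1))) ^ (Wd t k a).card ≤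
          (1 - 1 / ((k : ℝ) * Real.log 2)) ^ (Wd t k a).card := pow_le_pow_left₀ (Real.exp_pos _).le h3 _
      refine le_trans ?_ h4
      rw [← Real.exp_nat_mul, Real.exp_le_exp]
      have h5 : 0 < (k : ℝ) * Real.log 2 - 1 := by linarith
      have h6 : ((Wd t k a).card : ℝ) * (1 / (k * Real.log 2 - 1)) ≤ t * ((k + 1) * Real.log 2) / (k * Real.log 2 - 1) := by
        rw [mul_one_div]
        exact div_le_div_of_nonneg_right hcard h5.le
      linarith
    have e1 : 1 / (1 + 1 / (k : ℝ)) = k / (k + 1) := by field_simp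
    have e2 : t * (1 + 1 / (k : ℝ)) * Real.log 2 / (Real.log 2 - 1 / (k : ℝ)) =
        t * ((k + 1) * Real.log 2) / (k * Real.log 2 - 1) := by
      have h5 : (k : ℝ) * Real.log 2 - 1 ≠ 0 := by linarith
      have h6 : Real.log 2 - 1 / (k : ℝ) = (k * Real.log 2 - 1) / k := by field_simp
      rw [h6]
      field_simp
    rw [e1, e2] at hk1
    have h2 : 1 / (((k : ℝ) + 1) * Real.log 2) * Real.exp (-(t * ((k + 1) * Real.log 2) / (k * Real.log 2 - 1))) ≤
        pc a * ∏ n ∈ Wd t k a, (1 - pc n) := mul_le_mul hpa.1 h1 (Real.exp_pos _).le hpa0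
    refine le_trans ?_ h2
    have h3 := div_le_div_of_nonneg_right hk1 hkl0.le
    refine h3.trans (le_of_eq ?_)
    field_simp
  · intro hin
    have hcard : t * (k * Real.log 2) - 1 ≤ ((Wd t k a).card : ℝ) := by
      have ha' := ha
      rw [block, mem_Ico] at ha'
      have h0 : 0 ≤ t * Real.log a := mul_nonneg ht (Real.log_natCast_nonneg a)
      have h1 : Ioc a (a + ⌊t * Real.log a⌋₊) ⊆ Wd t k a := by
        intro n hn
        rw [mem_Ioc] at hn
        unfold Wd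
        have h3 := Nat.floor_le h0
        have h4 : (n : ℝ) ≤ a + t * Real.log a := by
          have : (n : ℝ) ≤ a + (⌊t * Real.log a⌋₊ : ℝ) := by exact_mod_cast hn.2
          linarith
        have h5 : n < 2 ^ (k + 1) := by
          have : (n : ℝ) < 2 ^ (k + 1) := lt_of_le_of_lt h4 hin
          exact_mod_cast this
        rw [mem_filter, block, mem_Ico]
        exact ⟨⟨by omega, h5⟩, hn.1, h4⟩
      have h2 := card_le_card h1
      rw [Nat.card_Ioc] at h2
      have h3 : ⌊t * Real.log a⌋₊ ≤ (Wd t k a).card := by omega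
      have h4 : (⌊t * Real.log a⌋₊ : ℝ) ≤ (Wd t k a).card := by exact_mod_cast h3
      have h5 := Nat.sub_one_lt_floor (t * Real.log a)
      have h6 : t * (k * Real.log 2) ≤ t * Real.log a := mul_le_mul_of_nonneg_left hla.1 ht
      linarith
    have h1 : ∏ n ∈ Wd t k a, (1 - pc n) ≤ Real.exp (-((t * (k * Real.log 2) - 1) / ((k + 1) * Real.log 2))) := by
      have h2 : ∏ n ∈ Wd t k a, (1 - pc n) ≤ Real.exp (-(1 / (((k : ℝ) + 1) * Real.log 2))) ^ (Wd t k a).card := by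
        rw [← prod_const]
        refine prod_le_prod (fun n hn => (hfac n hn).1) (fun n hn => ?_)
        have h3 := Real.one_sub_le_exp_neg (1 / (((k : ℝ) + 1) * Real.log 2))
        linarith [(hpc n (hWb n hn)).1]
      refine h2.trans ?_
      rw [← Real.exp_nat_mul, Real.exp_le_exp]
      have h3 := div_le_div_of_nonneg_right hcard hk1l.le
      have e : ((Wd t k a).card : ℝ) * -(1 / (((k : ℝ) + 1) * Real.log 2)) =
          -(((Wd t k a).card : ℝ) / (((k : ℝ) + 1) * Real.log 2)) := by ring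
      rw [e]
      linarith
    have e1 : (t * Real.log 2 - 1 / (k : ℝ)) / ((1 + 1 / (k : ℝ)) * Real.log 2) =
        (t * (k * Real.log 2) - 1) / ((k + 1) * Real.log 2) := by
      have h6 : t * Real.log 2 - 1 / (k : ℝ) = (t * (k * Real.log 2) - 1) / k := by
        field_simp
      have h7 : (1 + 1 / (k : ℝ)) * Real.log 2 = ((k + 1) * Real.log 2) / k := by
        field_simp
      rw [h6, h7, div_div_div_cancel_right₀ hkp.ne']
    rw [e1] at hk2
    calc pc a * ∏ n ∈ Wd t k a, (1 - pc n) ≤ 1 / (k * Real.log 2) * (Real.exp (-t) + δ) :=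
          mul_le_mul hpa.2 (h1.trans hk2) hprod0 (by positivity)
      _ = _ := by ring

theorem mean_ev {t ε : ℝ} (ht : 0 ≤ t) (hε : 0 < ε) : ∀ᶠ k : ℕ in atTop, ∀ v ∈ block k,
    |Ex pc (block k) (fun T => (cn2 t k v T : ℝ)) - Real.exp (-t) * ((v : ℝ) - 2 ^ k) / (k * Real.log 2)| ≤
      ε * (2 ^ k / k) := by
  classical
  have hl2 : 0 < Real.log 2 := Real.log_pos (by norm_num)
  have hl2a := Real.log_two_gt_d9
  have hl2b := Real.log_two_lt_d9
  filter_upwards [term_ev ht (show 0 < ε / 8 by positivity), eventually_ge_atTop 4,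
    ev_pow_div (4 * t + 2) (ε / 2) (by positivity)] with k hterm hk4 hbig v hv
  have hk0 : (4 : ℝ) ≤ k := by exact_mod_cast hk4
  have hkp : (0 : ℝ) < k := by linarith
  have hkl0 : 0 < (k : ℝ) * Real.log 2 := by positivity
  rw [block, mem_Ico] at hv
  rw [Ex_cn2 hv.2.le]
  obtain ⟨M, hM⟩ : ∃ M : ℕ, M = ⌈t * ((k + 1) * Real.log 2)⌉₊ := ⟨_, rfl⟩
  have hM1 : t * ((k + 1) * Real.log 2) ≤ M := by rw [hM]; exact Nat.le_ceil _
  have hM2 : (M : ℝ) ≤ t * ((k + 1) * Real.log 2) + 1 := by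
    rw [hM]
    exact (Nat.ceil_lt_add_one (by positivity)).le
  have e1 : Real.exp (-t) * ((v : ℝ) - 2 ^ k) / (k * Real.log 2) =
      ∑ _a ∈ Ico (2 ^ k) v, Real.exp (-t) / (k * Real.log 2) := by
    rw [sum_const, Nat.card_Ico, nsmul_eq_mul, Nat.cast_sub hv.1]
    push_cast
    ring
  rw [e1, ← sum_sub_distrib]
  refine (abs_sum_le_sum_abs _ _).trans ?_
  have h1 : ∀ a ∈ Ico (2 ^ k) v, |pc a * ∏ n ∈ Wd t k a, (1 - pc n) - Real.exp (-t) / (k * Real.log 2)| ≤
      ε / 8 / (k * Real.log 2) + (if a ∈ Ico (2 ^ (k + 1) - M) (2 ^ (k + 1)) then 1 / (k * Real.log 2) else 0) := by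
    intro a ha
    rw [mem_Ico] at ha
    have hab : a ∈ block k := by rw [block, mem_Ico]; omega
    obtain ⟨h2, h3, h4, h5⟩ := hterm a hab
    have h6 := log_bounds ha.1 (show a ≤ 2 ^ (k + 1) by omega)
    have h7 : 0 < 1 / ((k : ℝ) * Real.log 2) := by positivity
    have h8 : 0 < ε / 8 / ((k : ℝ) * Real.log 2) := by positivity
    have h9 : 0 < Real.exp (-t) / ((k : ℝ) * Real.log 2) := by positivity
    rw [sub_div] at h4
    rw [add_div] at h5
    rw [abs_le]
    by_cases hin : (a : ℝ) + t * Real.log a < 2 ^ (k + 1)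
    · have h10 := h5 hin
      constructor <;> split_ifs <;> linarith
    · rw [if_pos]
      · constructor <;> linarith
      · push Not at hin
        rw [mem_Ico]
        refine ⟨?_, by omega⟩
        have h10 : t * Real.log a ≤ M := (mul_le_mul_of_nonneg_left h6.2 ht).trans hM1
        have h11 : (2 : ℝ) ^ (k + 1) ≤ a + M := by linarith
        have h12 : 2 ^ (k + 1) ≤ a + M := by exact_mod_cast h11
        omega
  refine (sum_le_sum h1).trans ?_
  rw [sum_add_distrib, sum_const, Nat.card_Ico, nsmul_eq_mul, ← sum_filter, sum_const, nsmul_eq_mul]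
  have h2 : ((v - 2 ^ k : ℕ) : ℝ) ≤ 2 ^ k := by
    have : v - 2 ^ k ≤ 2 ^ k := by
      have : 2 ^ (k + 1) = 2 * 2 ^ k := by ring
      omega
    exact_mod_cast this
  have h3 : (((Ico (2 ^ k) v).filter (fun a => a ∈ Ico (2 ^ (k + 1) - M) (2 ^ (k + 1)))).card : ℝ) ≤ M := by
    have h4 : ((Ico (2 ^ k) v).filter (fun a => a ∈ Ico (2 ^ (k + 1) - M) (2 ^ (k + 1)))).card ≤ M := by
      refine (card_le_card (t := Ico (2 ^ (k + 1) - M) (2 ^ (k + 1))) ?_).trans ?_
      · intro a ha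
        exact (mem_filter.1 ha).2
      · rw [Nat.card_Ico]
        omega
    exact_mod_cast h4
  have h4 : 1 / ((k : ℝ) * Real.log 2) ≤ 2 / k := by
    rw [div_le_div_iff₀ hkl0 hkp]
    nlinarith
  have h5 : ε / 8 / ((k : ℝ) * Real.log 2) ≤ ε / 8 * (2 / k) := by
    have := mul_le_mul_of_nonneg_left h4 (show 0 ≤ ε / 8 by positivity)
    rwa [mul_one_div] at this
  have h6 : ((v - 2 ^ k : ℕ) : ℝ) * (ε / 8 / (k * Real.log 2)) ≤ 2 ^ k * (ε / 8 * (2 / k)) :=
    mul_le_mul h2 h5 (by positivity) (by positivity)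
  have h7 : (((Ico (2 ^ k) v).filter (fun a => a ∈ Ico (2 ^ (k + 1) - M) (2 ^ (k + 1)))).card : ℝ) *
      (1 / (k * Real.log 2)) ≤ M * (2 / k) := mul_le_mul h3 h4 (by positivity) (by positivity)
  have h8 : (M : ℝ) * (2 / k) ≤ 4 * t + 2 := by
    rw [mul_div_assoc', div_le_iff₀ hkp]
    have h9 : t * (((k : ℝ) + 1) * Real.log 2) ≤ t * (2 * k) := by
      apply mul_le_mul_of_nonneg_left _ ht
      nlinarith
    nlinarith
  have e2 : (2 : ℝ) ^ k * (ε / 8 * (2 / k)) = ε / 4 * (2 ^ k / k) := by ring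
  have h10 : (0 : ℝ) ≤ 2 ^ k / k := by positivity
  rw [e2] at h6
  nlinarith

theorem t_MGS : J_MGS := by
  classical
  intro t ε ht hε
  obtain ⟨e₁, he₁⟩ : ∃ e₁ : ℝ, e₁ = min (ε / 2) 1 := ⟨_, rfl⟩
  have he0 : 0 < e₁ := by rw [he₁]; exact lt_min (by positivity) one_pos
  have he1 : e₁ ≤ 1 := by rw [he₁]; exact min_le_right _ _
  have he2 : e₁ ≤ ε / 2 := by rw [he₁]; exact min_le_left _ _
  refine ⟨e₁ ^ 2 / 16, by positivity, ?_⟩
  have hl2 : 0 < Real.log 2 := Real.log_pos (by norm_num)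
  have hl2a := Real.log_two_gt_d9
  have hl2b := Real.log_two_lt_d9
  have hlin : ∀ᶠ k : ℕ in atTop, (k : ℝ) + 1 ≤ e₁ ^ 2 / 16 * (2 ^ k / k) := by
    have hgeo := tendsto_pow_const_div_const_pow_of_one_lt 2 (show (1 : ℝ) < 2 by norm_num)
    filter_upwards [eventually_ge_atTop 1,
      hgeo.eventually_lt_const (show (0 : ℝ) < e₁ ^ 2 / 32 by positivity)] with k hk h
    have hk1 : (1 : ℝ) ≤ k := by exact_mod_cast hk
    rw [div_lt_iff₀ (by positivity)] at h
    rw [mul_div_assoc', le_div_iff₀ (by linarith)]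
    nlinarith
  filter_upwards [mean_ev ht (show 0 < ε / 2 by positivity), eventually_ge_atTop 4, hlin] with k hmean hk4 hk
  intro Ω _ μ _ A hA
  have hk0 : (4 : ℝ) ≤ k := by exact_mod_cast hk4
  have hkp : (0 : ℝ) < k := by linarith
  have hkl0 : 0 < (k : ℝ) * Real.log 2 := by positivity
  obtain ⟨N, hN⟩ : ∃ N : ℝ, N = 2 ^ k / k := ⟨_, rfl⟩
  have hN0 : 0 < N := by rw [hN]; positivity
  rw [← hN] at hk ⊢
  have hθ : ∀ p, 0 ≤ pc p ∧ pc p ≤ 1 := by
    intro p
    refine ⟨pc_nonneg p, ?_⟩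
    unfold pc
    split_ifs with h
    · have h1 := one_lt_log h
      rw [div_le_one (by linarith)]
      exact h1.le
    · norm_num
  have hsum : ∑ n ∈ block k, pc n ≤ 2 * N := by
    have h1 : ∀ n ∈ block k, pc n ≤ 2 / k := by
      intro n hn
      rw [pc_block (by omega) hn]
      rw [block, mem_Ico] at hn
      obtain ⟨h2, h3⟩ := log_bounds hn.1 hn.2.le
      have h4 : 1 / Real.log n ≤ 1 / (k * Real.log 2) := one_div_le_one_div_of_le hkl0 h2
      refine h4.trans ?_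
      rw [div_le_div_iff₀ hkl0 hkp]
      nlinarith
    refine (sum_le_sum h1).trans ?_
    rw [sum_const, card_block, nsmul_eq_mul, hN]
    push_cast
    apply le_of_eq
    ring
  obtain ⟨F, hF⟩ : ∃ F : ℕ → Finset ℕ → ℝ, F = fun v T => (cn2 t k v T : ℝ) := ⟨_, rfl⟩
  have hsub : {ω | ∃ v ∈ block k, ε * 2 ^ k / k ≤
      |(cn2 t k v (tr A (block k) ω) : ℝ) - Real.exp (-t) * ((v : ℝ) - 2 ^ k) / (k * Real.log 2)|} ⊆
      ⋃ v ∈ block k, {ω | e₁ * N ≤ |F v (tr A (block k) ω) - Ex pc (block k) (F v)|} := by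
    rintro ω ⟨v, hv, h1⟩
    rw [Set.mem_iUnion₂]
    refine ⟨v, hv, ?_⟩
    show e₁ * N ≤ |F v (tr A (block k) ω) - Ex pc (block k) (F v)|
    have h2 := hmean v hv
    rw [← hN] at h2
    have e : ε * 2 ^ k / (k : ℝ) = ε * N := by rw [hN]; ring
    rw [e] at h1
    have hFv : F v = fun T => (cn2 t k v T : ℝ) := by rw [hF]
    rw [hFv]
    have h3 := abs_add_le ((cn2 t k v (tr A (block k) ω) : ℝ) - Ex pc (block k) (fun T => (cn2 t k v T : ℝ)))
      (Ex pc (block k) (fun T => (cn2 t k v T : ℝ)) - Real.exp (-t) * ((v : ℝ) - 2 ^ k) / (k * Real.log 2))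
    rw [sub_add_sub_cancel] at h3
    have h4 : e₁ * N ≤ ε / 2 * N := mul_le_mul_of_nonneg_right he2 hN0.le
    beta_reduce
    linarith
  have hone : ∀ v ∈ block k, μ.real {ω | e₁ * N ≤ |F v (tr A (block k) ω) - Ex pc (block k) (F v)|} ≤
      2 * Real.exp (-(e₁ ^ 2 / 8 * N)) := by
    intro v _
    have h1 := real_Ex hA (block k) (fun T => e₁ * N ≤ |F v T - Ex pc (block k) (F v)|)
    rw [h1]
    have h2 := tail_sparse hθ (block k) (F v) (fun T _ q _ _ => by
      rw [hF]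
      exact cn2_bd t k v T q) (V := 2 * N) (by positivity) hsum (x := e₁ * N) (by positivity) (by nlinarith)
    have e : (e₁ * N) ^ 2 / (4 * (2 * N)) = e₁ ^ 2 / 8 * N := by
      field_simp
      ring
    rw [e] at h2
    refine le_trans (le_of_eq ?_) h2
    apply Ex_congr
    intro T _
    congr
  calc μ.real {ω | ∃ v ∈ block k, ε * 2 ^ k / k ≤
      |(cn2 t k v (tr A (block k) ω) : ℝ) - Real.exp (-t) * ((v : ℝ) - 2 ^ k) / (k * Real.log 2)|} ≤
        μ.real (⋃ v ∈ block k, {ω | e₁ * N ≤ |F v (tr A (block k) ω) - Ex pc (block k) (F v)|}) :=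
        measureReal_mono hsub (measure_ne_top _ _)
    _ ≤ ∑ v ∈ block k, μ.real {ω | e₁ * N ≤ |F v (tr A (block k) ω) - Ex pc (block k) (F v)|} :=
        measureReal_biUnion_finset_le _ _
    _ ≤ ∑ _v ∈ block k, 2 * Real.exp (-(e₁ ^ 2 / 8 * N)) := sum_le_sum hone
    _ = (2 : ℝ) ^ (k + 1) * Real.exp (-(e₁ ^ 2 / 8 * N)) := by
        rw [sum_const, card_block, nsmul_eq_mul]
        push_cast
        ring
    _ ≤ Real.exp (k + 1) * Real.exp (-(e₁ ^ 2 / 8 * N)) := by
        apply mul_le_mul_of_nonneg_right _ (Real.exp_pos _).le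
        have h1 : (2 : ℝ) ≤ Real.exp 1 := by
          have := Real.add_one_le_exp (1 : ℝ)
          linarith
        have h2 : Real.exp ((k : ℝ) + 1) = Real.exp 1 ^ (k + 1) := by
          rw [← Real.exp_nat_mul]
          push_cast
          ring_nf
        rw [h2]
        exact pow_le_pow_left₀ (by norm_num) h1 _
    _ ≤ _ := by
        rw [← Real.exp_add, Real.exp_le_exp]
        linarith

end Pool.Agent.Q47.MG
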